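import Pool.Agent.W213.Ly.Frame
import Pool.Agent.W639.Ly.NoCode

/-! Assembly: a weak representation of L(6,0) gives 36 words contradicting `NoCode`. -/

set_option autoImplicit false

namespace Pool.Agent.W213.Ly

universe u

variable {D : Type u} {H : ℕ → D → D → Prop}

theorem s1_zero (hH : MWR H) {x y : D} (h : H (s1 1) x y) : x ≠ y := by
  rintro rfl
  have h1 := hH.inter h (hH.idl x)
  have e : s1 1 &&& 128 = 0 := by decide +kernel
  rw [e] at h1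
  exact hH.zero _ _ h1

/-- existence of a frame with a nonzero element of base 1 -/
theorem frame_ex (hG : Good H) {z0 q : D} (h0 : H (s1 1) q z0) :
    ∃ z : ℕ → D, Frame H q z ∧ El H q z 1 q ∧ q ≠ z 1 := by
  have hH := hG.mwr
  have hz : ∀ l : ℕ, ∃ y, l ≠ 0 → l < 7 → H (m1 0) z0 y ∧ H (m1 l) y q := by
    intro l
    by_cases hl : l ≠ 0 ∧ l < 7
    · obtain ⟨y, h1, h2⟩ := meet_ex hH (by norm_num : 0 < 7) hl.2 hl.1.symm z0 q
      exact ⟨y, fun _ _ => ⟨h1, h2⟩⟩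
    · exact ⟨z0, fun h1 h2 => absurd ⟨h1, h2⟩ hl⟩
  choose z hz using hz
  have hzz : ∀ k l, k ≠ 0 → k < 7 → l ≠ 0 → l < 7 → H (m1 0) (z k) (z l) := fun k l hk0 hk hl0 hl =>
    line_trans hH (by norm_num) (hH.symm (hz k hk0 hk).1) (hz l hl0 hl).1
  have hq : ∀ l, l ≠ 0 → l < 7 → H (s1 l) q (z l) := by
    intro l hl0 hl
    have h1 := hH.symm (hz l hl0 hl).2
    -- exclude the identity
    have h2 := hH.cmp h0 (hz l hl0 hl).1
    have e : ((List.range 7).all fun l => Nat.beq l 0 ||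
        sub (m1 l &&& comp (s1 1) (m1 0)) (s1 l)) = true := by decide +kernel
    have e1 := dec1 e hl
    rw [Bool.or_eq_true] at e1
    rcases e1 with e1 | e1
    · exact absurd (Nat.eq_of_beq_eq_true e1) hl0
    · exact hH.mono (sub_iff.1 e1) (hH.inter h1 h2)
  refine ⟨z, ⟨hq, hzz⟩, ⟨line_refl hH (by norm_num) q, ?_⟩, s1_zero hH (hq 1 (by norm_num) (by norm_num))⟩
  intro j hj0 hj _
  exact s1_s2 hH hj (hq j hj0 hj)

theorem no_mask_rep (hG : Good H) {z0 q : D} (h0 : H (s1 1) q z0) : False := by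
  have hH := hG.mwr
  obtain ⟨z, hF, hEq, hne⟩ := frame_ex hG h0
  have n1 : (1 : ℕ) ≠ 0 := by norm_num
  have n2 : (2 : ℕ) ≠ 0 := by norm_num
  have l0 : (0 : ℕ) < 7 := by norm_num
  have l1 : (1 : ℕ) < 7 := by norm_num
  have l2 : (2 : ℕ) < 7 := by norm_num
  -- the points A c l
  have hA : ∀ c l : ℕ, ∃ a : D, c < 7 → l < 7 → c ≠ l → H (m1 c) (z 1) a ∧ H (m1 l) a (z 2) := by
    intro c l
    by_cases h : c < 7 ∧ l < 7 ∧ c ≠ l
    · obtain ⟨a, h1, h2⟩ := meet_ex hH h.1 h.2.1 h.2.2 (z 1) (z 2)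
      exact ⟨a, fun _ _ _ => ⟨h1, h2⟩⟩
    · exact ⟨z 1, fun h1 h2 h3 => absurd ⟨h1, h2, h3⟩ h⟩
  choose A hA using hA
  have hX : ∀ c l k : ℕ, ∃ x : D, k ≠ 0 → k < 7 → H (m1 0) (z 1) x ∧ H (m1 k) x (A c l) := by
    intro c l k
    by_cases h : k ≠ 0 ∧ k < 7
    · obtain ⟨a, h1, h2⟩ := meet_ex hH l0 h.2 h.1.symm (z 1) (A c l)
      exact ⟨a, fun _ _ => ⟨h1, h2⟩⟩
    · exact ⟨z 1, fun h1 h2 => absurd ⟨h1, h2⟩ h⟩
  choose X hX using hX
  have hXK : ∀ c l k, k ≠ 0 → k < 7 → OnK H z (X c l k) := fun c l k hk0 hk =>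
    onK_of hH hF n1 l1 (hH.symm (hX c l k hk0 hk).1)
  -- decide all
  obtain ⟨i1, G1, hi7, hi0, hE1, hne1, -, hdec1⟩ := dec_list hG hF
    ((List.range 7).flatMap fun c => (List.range 7).flatMap fun l =>
      ((List.range 7).filter fun k => k ≠ 0).map fun k => X c l k) (by
      intro Y hY
      simp only [List.mem_flatMap, List.mem_range, List.mem_map, List.mem_filter,
        decide_eq_true_eq] at hY
      obtain ⟨c, hc, l, hl, k, ⟨hk, hk0⟩, rfl⟩ := hY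
      exact hXK c l k hk0 hk) 1 q l1 n1 hEq hne
  have hdec1' : ∀ c l k, c < 7 → l < 7 → k ≠ 0 → k < 7 → Dec H (X c l k) G1 := by
    intro c l k hc hl hk0 hk
    apply hdec1
    simp only [List.mem_flatMap, List.mem_range, List.mem_map, List.mem_filter,
      decide_eq_true_eq]
    exact ⟨c, hc, l, hl, k, ⟨hk, hk0⟩, rfl⟩
  obtain ⟨G, hE, hneG, hdec⟩ : ∃ G, El H q z 1 G ∧ G ≠ z 1 ∧
      ∀ c l k, c < 7 → l < 7 → k ≠ 0 → k < 7 → Dec H (X c l k) G := by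
    by_cases h : 1 = i1
    · subst h; exact ⟨G1, hE1, hne1, hdec1'⟩
    · obtain ⟨G, h1, h2, h3⟩ := base_change hG hF hi7 l1 hi0 n1 h hE1 hne1
      exact ⟨G, h1, h2, fun c l k hc hl hk0 hk => (hdec1' c l k hc hl hk0 hk).mono (hXK c l k hk0 hk) h3⟩
  obtain ⟨u, huK, huG, huq⟩ := sup_ex hG hF l1 l2 n1 n2 (by norm_num) hE
  have hGz := el_zi hG hF l1 n1 hE
  have huz : u ≠ z 1 := by
    intro h
    apply hneG
    exact meet_eq hH l1 l2 (by norm_num) hGz (by rw [← h]; exact hH.symm huG)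
  -- the points zg n
  have hzg : ∀ n : ℕ, ∃ y : D, n ≠ 0 → n < 7 → H (m1 0) (z 1) y ∧ H (m1 n) y G := by
    intro n
    by_cases h : n ≠ 0 ∧ n < 7
    · obtain ⟨a, h1, h2⟩ := meet_ex hH l0 h.2 h.1.symm (z 1) G
      exact ⟨a, fun _ _ => ⟨h1, h2⟩⟩
    · exact ⟨z 1, fun h1 h2 => absurd ⟨h1, h2⟩ h⟩
  choose zg hzg using hzg
  have hA' : ∀ c l : ℕ, ∃ a : D, c < 7 → l < 7 → c ≠ l → H (m1 c) (z 1) a ∧ H (m1 l) a u := by
    intro c l
    by_cases h : c < 7 ∧ l < 7 ∧ c ≠ l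
    · obtain ⟨a, h1, h2⟩ := meet_ex hH h.1 h.2.1 h.2.2 (z 1) u
      exact ⟨a, fun _ _ _ => ⟨h1, h2⟩⟩
    · exact ⟨z 1, fun h1 h2 h3 => absurd ⟨h1, h2, h3⟩ h⟩
  choose A' hA' using hA'
  have hz1 : zg 1 = z 1 := by
    have h1 := hzg 1 n1 l1
    exact meet_eq hH l0 l1 (by norm_num) (hH.symm h1.1) (line_trans hH l1 h1.2 hGz)
  have hz2 : zg 2 = u := by
    have h1 := hzg 2 n2 l2
    exact meet_eq hH l0 l2 (by norm_num) (line_trans hH l0 (hH.symm h1.1) (hH.symm (huK 1 n1 l1)))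
      (line_trans hH l2 h1.2 (hH.symm huG))
  -- key: lines
  have key : ∀ c l k, c ≠ 0 → c < 7 → l ≠ 0 → l < 7 → k ≠ 0 → k < 7 → c ≠ l →
      ∃ n, n ≠ 0 ∧ n < 7 ∧ H (m1 k) (A' c l) (zg n) := by
    intro c l k hc0 hc hl0 hl hk0 hk hcl
    by_cases hkc : k = c
    · subst hkc
      exact ⟨1, n1, l1, by rw [hz1]; exact hH.symm (hA' k l hc hl hcl).1⟩
    · by_cases hkl : k = l
      · subst hkl
        exact ⟨2, n2, l2, by rw [hz2]; exact (hA' c k hc hl hcl).2⟩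
      · obtain ⟨n, hn0, hn, hd⟩ := hdec c l k hc hl hk0 hk
        obtain ⟨W, hW1, hW2⟩ := meet_ex hH l0 hk hk0.symm (z 1) (A' c l)
        have h1 : H (m2 0 n) (X c l k) G := comb_m2 hH hn hn0 fun m hm0 hm hmn => hd m hm0 hm hmn
        have h2 := lemF hG rules4 hc hl hk hn hc0 hl0 hk0 hn0 hcl.symm hkc hkl
          (hF.hq 1 n1 l1) (hF.hz 2 1 n2 l2 n1 l1) (s1_m1 hH l2 (hH.symm (hF.hq 2 n2 l2))) (huK 1 n1 l1)
          huq hGz (hH.symm huG) (hH.symm (hA c l hc hl hcl).1) (hA c l hc hl hcl).2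
          (hH.symm (hA' c l hc hl hcl).1) (hA' c l hc hl hcl).2 (hX c l k hk0 hk).2
          (hH.symm (hX c l k hk0 hk).1) h1 (hzg n hn0 hn).2 (hH.symm (hzg n hn0 hn).1) hW2
          (hH.symm hW1)
        have h3 := hH.ideq h2
        exact ⟨n, hn0, hn, by rw [← h3]; exact hH.symm hW2⟩
  -- the points
  have hAz : ∀ c l, c ≠ 0 → c < 7 → l ≠ 0 → l < 7 → c ≠ l → A' c l ≠ z 1 := by
    intro c l hc0 hc hl0 hl hcl h
    apply huz
    have h1 := (hA' c l hc hl hcl).2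
    rw [h] at h1
    exact (meet_eq hH l0 hl hl0.symm (hH.symm (huK 1 n1 l1)) h1).symm
  have hzz : ∀ n n', n ≠ 0 → n < 7 → n' ≠ 0 → n' < 7 → zg n = zg n' → n = n' := by
    intro n n' hn0 hn hn0' hn' h
    by_contra hcon
    apply hneG
    have h1 := (hzg n hn0 hn).2
    have h2 := (hzg n' hn0' hn').2
    rw [← h] at h2
    have h3 := meet_eq hH hn hn' hcon h1 h2
    have h4 := (hzg n hn0 hn).1
    rw [h3] at h4
    exact (meet_eq hH l0 l1 (by norm_num) h4 (hH.symm hGz)).symm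
  let P : ℕ → ℕ → D := fun c l => if c = l then zg c else A' c l
  have hP : ∀ c l k, c ≠ 0 → c < 7 → l ≠ 0 → l < 7 → k ≠ 0 → k < 7 →
      ∃ n, n ≠ 0 ∧ n < 7 ∧ H (m1 k) (P c l) (zg n) := by
    intro c l k hc0 hc hl0 hl hk0 hk
    by_cases hcl : c = l
    · subst hcl
      refine ⟨c, hc0, hc, ?_⟩
      simp only [P, if_true]
      exact line_refl hH hk _
    · simp only [P, if_neg hcl]
      exact key c l k hc0 hc hl0 hl hk0 hk hcl
  have hzA : ∀ n c l, n ≠ 0 → n < 7 → c ≠ 0 → c < 7 → l ≠ 0 → l < 7 → c ≠ l → zg n ≠ A' c l := by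
    intro n c l hn0 hn hc0 hc hl0 hl hcl h
    apply hAz c l hc0 hc hl0 hl hcl
    have h1 := (hzg n hn0 hn).1
    rw [h] at h1
    exact (meet_eq hH l0 hc hc0.symm h1 (hA' c l hc hl hcl).1).symm
  have hPinj : ∀ c l c' l', c ≠ 0 → c < 7 → l ≠ 0 → l < 7 → c' ≠ 0 → c' < 7 → l' ≠ 0 → l' < 7 →
      P c l = P c' l' → c = c' ∧ l = l' := by
    intro c l c' l' hc0 hc hl0 hl hc0' hc' hl0' hl' h
    simp only [P] at h
    by_cases hcl : c = l
    · by_cases hcl' : c' = l'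
      · rw [if_pos hcl, if_pos hcl'] at h
        have := hzz c c' hc0 hc hc0' hc' h
        exact ⟨this, by rw [← hcl, ← hcl', this]⟩
      · rw [if_pos hcl, if_neg hcl'] at h
        exact absurd h (hzA c c' l' hc0 hc hc0' hc' hl0' hl' hcl')
    · by_cases hcl' : c' = l'
      · rw [if_neg hcl, if_pos hcl'] at h
        exact absurd h.symm (hzA c' c l hc0' hc' hc0 hc hl0 hl hcl)
      · rw [if_neg hcl, if_neg hcl'] at h
        have g1 := hA' c l hc hl hcl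
        have g2 := hA' c' l' hc' hl' hcl'
        rw [← h] at g2
        have hcc : c = c' := by
          by_contra hcon
          exact hAz c l hc0 hc hl0 hl hcl (meet_eq hH hc hc' hcon g1.1 g2.1).symm
        refine ⟨hcc, ?_⟩
        by_contra hcon
        have h3 := meet_eq hH hl hl' hcon g1.2 g2.2
        apply huz
        have h4 := g1.1
        rw [h3] at h4
        exact (meet_eq hH l0 hc hc0.symm (hH.symm (huK 1 n1 l1)) h4).symm
  -- the code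
  have hPf : ∀ t : Fin 36, ∀ k : Fin 6, ∃ n : Fin 6,
      H (m1 (k.1 + 1)) (P (t.1 / 6 + 1) (t.1 % 6 + 1)) (zg (n.1 + 1)) := by
    intro t k
    obtain ⟨n, hn0, hn, h⟩ := hP (t.1 / 6 + 1) (t.1 % 6 + 1) (k.1 + 1) (by omega) (by omega) (by omega)
      (by omega) (by omega) (by omega)
    refine ⟨⟨n - 1, by omega⟩, ?_⟩
    have : n - 1 + 1 = n := by omega
    simpa [this] using h
  choose f hf using hPf
  apply Pool.Agent.W639.Ly.noCode f
  intro s t hst k l hk hl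
  by_contra hkl
  apply hst
  have e1 : H (m1 (k.1 + 1)) (P (s.1 / 6 + 1) (s.1 % 6 + 1)) (P (t.1 / 6 + 1) (t.1 % 6 + 1)) := by
    have g1 := hf s k
    have g2 := hf t k
    rw [← hk] at g2
    exact line_trans hH (by omega) g1 (hH.symm g2)
  have e2 : H (m1 (l.1 + 1)) (P (s.1 / 6 + 1) (s.1 % 6 + 1)) (P (t.1 / 6 + 1) (t.1 % 6 + 1)) := by
    have g1 := hf s l
    have g2 := hf t l
    rw [← hl] at g2
    exact line_trans hH (by omega) g1 (hH.symm g2)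
  have hkl' : k.1 + 1 ≠ l.1 + 1 := by
    intro h
    apply hkl
    apply Fin.ext
    omega
  have e3 := meet_eq hH (by omega) (by omega) hkl' e1 e2
  obtain ⟨g1, g2⟩ := hPinj _ _ _ _ (by omega) (by omega) (by omega) (by omega) (by omega) (by omega)
    (by omega) (by omega) e3
  apply Fin.ext
  omega

end Pool.Agent.W213.Ly
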