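import Pool.Agent.W213.Ly.Nm

/-! Level 1 rules: certificates. -/

set_option autoImplicit false

namespace Pool.Agent.W213.Ly

/-- certificate for `c1R` -/
def c1R_st : List Step := [
  .dem 0 2 1 34, .dem 1 2 0 34, .dem 0 2 1 18, .dem 0 2 1 10, .dem 0 2 1 3, .dem 0 2 1 66,
  .pc 4 0 2, .pc 4 0 3, .pc 4 1 2, .pc 5 1 3, .pc 6 0 2, .pc 6 0 3, .pc 6 1 2, .pc 7 0 2,
  .pc 7 0 3, .pc 7 1 2, .pc 8 0 2, .pc 8 0 3, .pc 8 1 2, .pc 9 0 2, .pc 9 0 3, .pc 9 1 2,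
  .dem 5 130 7 192, .dem 3 130 7 160, .dem 3 130 7 129, .dem 5 130 8 192, .dem 5 130 8 136,
  .dem 1 2 9 129, .dem 1 2 9 136, .dem 5 130 6 136, .dem 1 2 9 144, .dem 3 130 8 144,
  .dem 1 2 6 129, .dem 5 130 9 160, .dem 1 2 6 192, .dem 3 130 4 129, .dem 1 2 4 144,
  .dem 1 2 6 160, .dem 3 130 4 136, .dem 5 130 7 144, .dem 1 2 4 192, .dem 1 2 8 160, .pc 10 5 1,
  .pc 10 5 3, .pc 10 7 0, .pc 10 7 1, .pc 11 3 1, .pc 11 7 0, .pc 11 7 1, .pc 12 3 1, .pc 12 7 0,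
  .pc 12 7 1, .pc 13 5 1, .pc 13 5 3, .pc 13 8 0, .pc 13 8 1, .pc 14 5 1, .pc 14 5 3, .pc 14 8 0,
  .pc 14 8 1, .pc 15 1 0, .pc 15 1 3, .pc 15 9 0, .pc 16 1 0, .pc 16 1 3, .pc 16 9 0, .pc 17 5 1,
  .pc 17 5 3, .pc 17 6 0, .pc 17 6 1, .pc 18 1 0, .pc 18 1 3, .pc 18 9 0, .pc 19 3 1, .pc 19 8 0,
  .pc 19 8 1, .pc 20 1 0, .pc 20 1 3, .pc 20 6 0, .pc 21 5 1, .pc 21 5 3, .pc 21 9 0, .pc 21 9 1,
  .pc 22 1 0, .pc 22 1 3, .pc 22 6 0, .pc 23 3 1, .pc 23 4 0, .pc 23 4 1, .pc 24 1 0, .pc 24 1 3,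
  .pc 24 4 0, .pc 25 1 0, .pc 25 1 3, .pc 25 6 0, .pc 26 3 1, .pc 26 4 0, .pc 26 4 1, .pc 27 5 1,
  .pc 27 5 3, .pc 27 7 0, .pc 27 7 1, .pc 28 1 0, .pc 28 1 3, .pc 28 4 0, .pc 29 1 0, .pc 29 1 3,
  .pc 29 8 0, .pc 10 1 0, .pc 10 0 3, .pc 11 1 0, .pc 11 0 3, .pc 12 1 0, .pc 12 0 3, .pc 13 1 0,
  .pc 13 0 3, .pc 14 1 0, .pc 14 0 3, .pc 15 0 3, .pc 3 15 9, .pc 16 0 3, .pc 3 16 9, .pc 17 1 0,
  .pc 17 0 3, .pc 18 0 3, .pc 3 18 9, .pc 19 1 0, .pc 19 0 3, .pc 20 0 3, .pc 3 20 6, .pc 21 1 0,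
  .pc 21 0 3, .pc 22 0 3, .pc 3 22 6, .pc 23 1 0, .pc 23 0 3, .pc 24 0 3, .pc 3 24 4, .pc 25 0 3,
  .pc 3 25 6, .pc 26 1 0, .pc 26 0 3, .pc 27 1 0, .pc 27 0 3, .pc 28 0 3, .pc 3 28 4, .pc 29 0 3,
  .pc 3 29 8, .pc 3 10 7, .pc 3 11 7, .pc 3 12 7, .pc 3 13 8, .pc 3 14 8, .pc 3 17 6, .pc 3 19 8,
  .pc 3 6 2, .pc 3 21 9, .pc 3 23 4, .pc 3 26 4, .pc 3 27 7, .pc 3 4 2, .pc 3 8 2, .pc 3 7 2,
  .pc 3 9 2]

set_option maxRecDepth 100000 in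
theorem c1R_chk : check 0 4 [(0, 1, 134), (2, 0, 130), (2, 1, 132), (3, 0, 132), (3, 1, 130)]
    3 2 134 c1R_st = true := by decide +kernel

set_option maxRecDepth 100000 in
theorem c1R_all : allD 2 [] (fun l => match l with
    | [a, b] => relOk (pcode [1, 2, 0, 3, 4, 5, 6] [a, b]) [(0, 1, 134), (2, 0, 130), (2, 1, 132), (3, 0, 132), (3, 1, 130)]
        [(0, 1, (m2 a b)), (2, 0, (m1 a)), (2, 1, (m1 b)), (3, 0, (m1 b)), (3, 1, (m1 a))] 134 (m2 a b)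
    | _ => true) = true := by decide +kernel

theorem c1R {D : Type*} {H : ℕ → D → D → Prop} (hH : Good H) (hR : ∀ K : ℕ → D → D → Prop, Good K → Rules 0 K)
    {a b : ℕ} (ha7 : a < 7) (hb7 : b < 7)
    (hba : b ≠ a)
    {w p x x' : D} (q0 : H (m2 a b) w p) (q1 : H (m1 a) x w) (q2 : H (m1 b) x p) (q3 : H (m1 b) x' w) (q4 : H (m1 a) x' p) :
    H (m2 a b) x' x := by
  have h0 := c1R_all
  have h1 := allD_step h0 ha7 nm0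
  have h2 := allD_step h1 hb7 (nm1 hba)
  refine rel_sound hH hR c1R_chk h2 (fun t => [w, p, x, x'].getD t w) ?_
  simp only [List.forall_mem_cons]
  exact ⟨q0, q1, q2, q3, q4, by simp⟩

/-- certificate for `spR` -/
def spR_st : List Step := [
  .dem 0 2 3 136, .pc 4 0 1, .pc 4 0 2, .pc 4 3 1, .pc 4 1 2, .pc 2 4 3]

set_option maxRecDepth 100000 in
theorem spR_chk : check 0 4 [(0, 1, 134), (2, 0, 130), (2, 1, 132), (0, 3, 119), (1, 3, 119)]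
    2 3 119 spR_st = true := by decide +kernel

set_option maxRecDepth 100000 in
theorem spR_all : allD 3 [] (fun l => match l with
    | [a, b, c] => relOk (pcode [1, 2, 3, 0, 4, 5, 6] [a, b, c]) [(0, 1, 134), (2, 0, 130), (2, 1, 132), (0, 3, 119), (1, 3, 119)]
        [(0, 1, (m2 a b)), (2, 0, (m1 a)), (2, 1, (m1 b)), (0, 3, (mx c)), (1, 3, (mx c))] 119 (mx c)
    | _ => true) = true := by decide +kernel

theorem spR {D : Type*} {H : ℕ → D → D → Prop} (hH : Good H) (hR : ∀ K : ℕ → D → D → Prop, Good K → Rules 0 K)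
    {a b c : ℕ} (ha7 : a < 7) (hb7 : b < 7) (hc7 : c < 7)
    (hba : b ≠ a) (hca : c ≠ a) (hcb : c ≠ b)
    {w p x y : D} (q0 : H (m2 a b) w p) (q1 : H (m1 a) x w) (q2 : H (m1 b) x p) (q3 : H (mx c) w y) (q4 : H (mx c) p y) :
    H (mx c) x y := by
  have h0 := spR_all
  have h1 := allD_step h0 ha7 nm0
  have h2 := allD_step h1 hb7 (nm1 hba)
  have h3 := allD_step h2 hc7 (nm2 hca hcb)
  refine rel_sound hH hR spR_chk h3 (fun t => [w, p, x, y].getD t w) ?_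
  simp only [List.forall_mem_cons]
  exact ⟨q0, q1, q2, q3, q4, by simp⟩

/-- certificate for `ra1R` -/
def ra1R_st : List Step := [
  .dem 3 1 0 41, .dem 3 1 0 25, .dem 1 1 0 9, .dem 0 2 3 42, .dem 0 2 3 26, .dem 0 2 3 14,
  .dem 0 2 3 74, .dem 1 1 0 7, .dem 3 8 0 11, .dem 0 64 1 70, .dem 0 192 1 129, .pc 4 3 1,
  .pc 4 3 2, .pc 4 0 1, .pc 4 0 2, .pc 4 0 14, .pc 5 3 1, .pc 5 3 2, .pc 5 0 1, .pc 5 0 2,
  .pc 5 0 14, .pc 6 1 2, .pc 6 1 14, .pc 6 0 2, .pc 6 0 14, .pc 7 0 1, .pc 7 0 2, .pc 7 3 1,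
  .pc 8 0 1, .pc 8 0 2, .pc 8 3 1, .pc 9 0 1, .pc 9 0 2, .pc 9 3 1, .pc 10 0 1, .pc 10 0 2,
  .pc 10 3 1, .pc 11 1 2, .pc 11 1 14, .pc 11 0 14, .pc 12 3 1, .pc 12 3 2, .pc 12 0 14,
  .pc 13 0 2, .pc 13 0 14, .pc 13 1 14, .pc 14 1 4, .pc 14 1 5, .pc 14 1 12, .pc 4 1 2, .pc 5 1 2,
  .pc 7 1 2, .pc 7 2 3, .pc 8 1 2, .pc 8 2 3, .pc 9 1 2, .pc 9 2 3, .pc 10 1 2, .pc 10 2 3,
  .pc 3 7 0, .pc 3 8 0, .pc 3 9 0, .pc 3 10 0, .sp 0 1 2 4 1 2 4, .sp 0 1 2 4 1 2 6,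
  .sp 0 1 2 5 1 2 5, .sp 0 1 2 5 1 2 6, .sp 0 1 2 6 1 2 4, .sp 0 1 2 6 1 2 5, .sp 0 1 2 6 1 2 6,
  .sp 0 1 2 11 1 2 3, .sp 0 1 2 11 1 2 4, .sp 0 1 2 11 1 2 5, .sp 0 1 2 11 1 2 6,
  .sp 0 1 2 13 1 2 0, .sp 0 1 2 13 1 2 3, .sp 0 1 2 13 1 2 4, .sp 0 1 2 13 1 2 5, .pc 2 4 14,
  .pc 2 5 14, .pc 2 6 14, .pc 2 11 14, .pc 2 13 14, .pc 2 14 12, .pc 12 2 0, .pc 0 12 3]

set_option maxRecDepth 100000 in
theorem ra1R_chk : check 2 4 [(0, 1, 134), (2, 0, 130), (2, 1, 132), (3, 2, 136), (3, 1, 129)]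
    0 3 138 ra1R_st = true := by decide +kernel

set_option maxRecDepth 100000 in
theorem ra1R_all : allD 4 [] (fun l => match l with
    | [a, b, c, d] => relOk (pcode [1, 2, 3, 0, 4, 5, 6] [a, b, c, d]) [(0, 1, 134), (2, 0, 130), (2, 1, 132), (3, 2, 136), (3, 1, 129)]
        [(0, 1, (m2 a b)), (2, 0, (m1 a)), (2, 1, (m1 b)), (3, 2, (m1 c)), (3, 1, (m1 d))] 138 (m2 a c)
    | _ => true) = true := by decide +kernel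

theorem ra1R {D : Type*} {H : ℕ → D → D → Prop} (hH : Good H) (hR : ∀ K : ℕ → D → D → Prop, Good K → Rules 2 K)
    {a b c d : ℕ} (ha7 : a < 7) (hb7 : b < 7) (hc7 : c < 7) (hd7 : d < 7)
    (hba : b ≠ a) (hca : c ≠ a) (hcb : c ≠ b) (hda : d ≠ a) (hdb : d ≠ b) (hdc : d ≠ c)
    {w p x y : D} (q0 : H (m2 a b) w p) (q1 : H (m1 a) x w) (q2 : H (m1 b) x p) (q3 : H (m1 c) y x) (q4 : H (m1 d) y p) :
    H (m2 a c) w y := by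
  have h0 := ra1R_all
  have h1 := allD_step h0 ha7 nm0
  have h2 := allD_step h1 hb7 (nm1 hba)
  have h3 := allD_step h2 hc7 (nm2 hca hcb)
  have h4 := allD_step h3 hd7 (nm3 hda hdb hdc)
  refine rel_sound hH hR ra1R_chk h4 (fun t => [w, p, x, y].getD t w) ?_
  simp only [List.forall_mem_cons]
  exact ⟨q0, q1, q2, q3, q4, by simp⟩

/-- certificate for `ra2R` -/
def ra2R_st : List Step := [
  .dem 0 129 2 192, .ra 1 0 2 4 2 1 6 0, .ra 4 1 2 3 6 2 3 1, .ra 3 4 2 0 3 6 1 0]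

set_option maxRecDepth 100000 in
theorem ra2R_chk : check 3 4 [(0, 1, 134), (2, 0, 130), (2, 1, 132), (3, 2, 136), (3, 1, 130)]
    3 0 138 ra2R_st = true := by decide +kernel

set_option maxRecDepth 100000 in
theorem ra2R_all : allD 3 [] (fun l => match l with
    | [a, b, c] => relOk (pcode [1, 2, 3, 0, 4, 5, 6] [a, b, c]) [(0, 1, 134), (2, 0, 130), (2, 1, 132), (3, 2, 136), (3, 1, 130)]
        [(0, 1, (m2 a b)), (2, 0, (m1 a)), (2, 1, (m1 b)), (3, 2, (m1 c)), (3, 1, (m1 a))] 138 (m2 a c)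
    | _ => true) = true := by decide +kernel

theorem ra2R {D : Type*} {H : ℕ → D → D → Prop} (hH : Good H) (hR : ∀ K : ℕ → D → D → Prop, Good K → Rules 3 K)
    {a b c : ℕ} (ha7 : a < 7) (hb7 : b < 7) (hc7 : c < 7)
    (hba : b ≠ a) (hca : c ≠ a) (hcb : c ≠ b)
    {w p x y : D} (q0 : H (m2 a b) w p) (q1 : H (m1 a) x w) (q2 : H (m1 b) x p) (q3 : H (m1 c) y x) (q4 : H (m1 a) y p) :
    H (m2 a c) y w := by
  have h0 := ra2R_all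
  have h1 := allD_step h0 ha7 nm0
  have h2 := allD_step h1 hb7 (nm1 hba)
  have h3 := allD_step h2 hc7 (nm2 hca hcb)
  refine rel_sound hH hR ra2R_chk h3 (fun t => [w, p, x, y].getD t w) ?_
  simp only [List.forall_mem_cons]
  exact ⟨q0, q1, q2, q3, q4, by simp⟩

end Pool.Agent.W213.Ly
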