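import Pool.Agent.W213.Ly.CertFd

/-! The final frame lemma: relabellings. -/

set_option autoImplicit false

namespace Pool.Agent.W213.Ly

set_option maxRecDepth 100000 in
theorem relF_all : allD 3 [0] (fun l => match l with
    | [_, c, l, k] => (List.range 7).all fun n => Nat.beq n 0 || relF c l k n
    | _ => true) = true := by decide +kernel

/-- the final frame lemma -/
theorem lemF {D : Type*} {H : ℕ → D → D → Prop} (hH : Good H)
    (hR : ∀ K : ℕ → D → D → Prop, Good K → Rules 4 K) {c l k n : ℕ}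
    (hc7 : c < 7) (hl7 : l < 7) (hk7 : k < 7) (hn7 : n < 7) (hc0 : c ≠ 0) (hl0 : l ≠ 0) (hk0 : k ≠ 0)
    (hn0 : n ≠ 0) (hlc : l ≠ c) (hkc : k ≠ c) (hkl : k ≠ l)
    {z1 q z2 u g A A' X zn W : D} (q0 : H (s1 1) q z1) (q1 : H (m1 0) z2 z1) (q2 : H (m1 2) z2 q)
    (q3 : H (m1 0) u z1) (q4 : H (s2 1 2) u q) (q5 : H (m1 1) g z1) (q6 : H (m1 2) g u)
    (q7 : H (m1 c) A z1) (q8 : H (m1 l) A z2) (q9 : H (m1 c) A' z1) (q10 : H (m1 l) A' u)
    (q11 : H (m1 k) X A) (q12 : H (m1 0) X z1) (q13 : H (m2 0 n) X g) (q14 : H (m1 n) zn g)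
    (q15 : H (m1 0) zn z1) (q16 : H (m1 k) W A') (q17 : H (m1 0) W z1) : H 128 W zn := by
  have h0 := relF_all
  have h1 := allD_step h0 hc7 (nm1 hc0)
  have h2 := allD_step h1 hl7 (nm2 hl0 hlc)
  have h3 := allD_step h2 hk7 (nm3 hk0 hkc hkl)
  have h4 : ((List.range 7).all fun n => Nat.beq n 0 || relF c l k n) = true := h3
  rw [List.all_eq_true] at h4
  have h5 := h4 n (List.mem_range.2 hn7)
  rw [Bool.or_eq_true] at h5
  rcases h5 with h5 | h5
  · exact absurd (Nat.eq_of_beq_eq_true h5) hn0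
  · unfold relF at h5
    rw [List.any_eq_true] at h5
    obtain ⟨t, ht, h6⟩ := h5
    obtain ⟨st, hst⟩ := canonF t ht
    refine rel_sound hH hR hst h6 (fun t => [z1, q, z2, u, g, A, A', X, zn, W].getD t z1) ?_
    unfold premF
    simp only [List.forall_mem_cons]
    exact ⟨q0, q1, q2, q3, q4, q5, q6, q7, q8, q9, q10, q11, q12, q13, q14, q15, q16, q17, by simp⟩

end Pool.Agent.W213.Ly
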