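import Pool.Agent.W213.Ly.Nm

/-! Frame lemmas: certificates. -/

set_option autoImplicit false

namespace Pool.Agent.W213.Ly

/-- certificate for `L1k` -/
def L1k_st : List Step := [
  .pc 2 1 4, .pc 2 3 4, .pc 4 2 0]

set_option maxRecDepth 100000 in
theorem L1k_chk : check 4 5 [(0, 2, 8), (1, 2, 129), (3, 2, 9), (4, 1, 129), (4, 3, 132)]
    4 0 247 L1k_st = true := by decide +kernel

set_option maxRecDepth 100000 in
theorem L1k_all : allD 3 [0] (fun l => match l with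
    | [_, i, j, n] => relOk (pcode [0, 1, 2, 3, 4, 5, 6] [0, i, j, n]) [(0, 2, 8), (1, 2, 129), (3, 2, 9), (4, 1, 129), (4, 3, 132)]
        [(0, 2, (s1 n)), (1, 2, (m1 0)), (3, 2, (s2 0 n)), (4, 1, (m1 0)), (4, 3, (m1 j))] 247 (nx n)
    | _ => true) = true := by decide +kernel

theorem L1k {D : Type*} {H : ℕ → D → D → Prop} (hH : Good H) (hR : ∀ K : ℕ → D → D → Prop, Good K → Rules 4 K)
    {i j n : ℕ} (hi7 : i < 7) (hj7 : j < 7) (hn7 : n < 7)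
    (hi0 : i ≠ 0) (hj0 : j ≠ 0) (hji : j ≠ i) (hn0 : n ≠ 0) (hni : n ≠ i) (hnj : n ≠ j)
    {q zi zn G u : D} (q0 : H (s1 n) q zn) (q1 : H (m1 0) zi zn) (q2 : H (s2 0 n) G zn) (q3 : H (m1 0) u zi) (q4 : H (m1 j) u G) :
    H (nx n) u q := by
  have h0 := L1k_all
  have h1 := allD_step h0 hi7 (nm1 hi0)
  have h2 := allD_step h1 hj7 (nm2 hj0 hji)
  have h3 := allD_step h2 hn7 (nm3 hn0 hni hnj)
  refine rel_sound hH hR L1k_chk h3 (fun t => [q, zi, zn, G, u].getD t q) ?_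
  simp only [List.forall_mem_cons]
  exact ⟨q0, q1, q2, q3, q4, by simp⟩

/-- certificate for `L1z` -/
def L1z_st : List Step := [
  .pc 0 1 2]

set_option maxRecDepth 100000 in
theorem L1z_chk : check 4 3 [(0, 1, 2), (2, 1, 129)]
    0 2 126 L1z_st = true := by decide +kernel

set_option maxRecDepth 100000 in
theorem L1z_all : allD 1 [0] (fun l => match l with
    | [_, i] => relOk (pcode [0, 1, 2, 3, 4, 5, 6] [0, i]) [(0, 1, 2), (2, 1, 129)]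
        [(0, 1, (s1 i)), (2, 1, (m1 0))] 126 (mx 0)
    | _ => true) = true := by decide +kernel

theorem L1z {D : Type*} {H : ℕ → D → D → Prop} (hH : Good H) (hR : ∀ K : ℕ → D → D → Prop, Good K → Rules 4 K)
    {i : ℕ} (hi7 : i < 7)
    (hi0 : i ≠ 0)
    {q zi u : D} (q0 : H (s1 i) q zi) (q1 : H (m1 0) u zi) :
    H (mx 0) q u := by
  have h0 := L1z_all
  have h1 := allD_step h0 hi7 (nm1 hi0)
  refine rel_sound hH hR L1z_chk h1 (fun t => [q, zi, u].getD t q) ?_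
  simp only [List.forall_mem_cons]
  exact ⟨q0, q1, by simp⟩

/-- certificate for `XB` -/
def XB_st : List Step := [
  .pc 0 1 2]

set_option maxRecDepth 100000 in
theorem XB_chk : check 4 3 [(0, 1, 1), (1, 2, 131)]
    0 2 253 XB_st = true := by decide +kernel

set_option maxRecDepth 100000 in
theorem XB_all : allD 1 [0] (fun l => match l with
    | [_, i] => relOk (pcode [0, 1, 2, 3, 4, 5, 6] [0, i]) [(0, 1, 1), (1, 2, 131)]
        [(0, 1, (s1 0)), (1, 2, (m2 0 i))] 253 (nx i)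
    | _ => true) = true := by decide +kernel

theorem XB {D : Type*} {H : ℕ → D → D → Prop} (hH : Good H) (hR : ∀ K : ℕ → D → D → Prop, Good K → Rules 4 K)
    {i : ℕ} (hi7 : i < 7)
    (hi0 : i ≠ 0)
    {X b G : D} (q0 : H (s1 0) X b) (q1 : H (m2 0 i) b G) :
    H (nx i) X G := by
  have h0 := XB_all
  have h1 := allD_step h0 hi7 (nm1 hi0)
  refine rel_sound hH hR XB_chk h1 (fun t => [X, b, G].getD t X) ?_
  simp only [List.forall_mem_cons]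
  exact ⟨q0, q1, by simp⟩

/-- certificate for `BK` -/
def BK_st : List Step := [
  .pc 1 0 2]

set_option maxRecDepth 100000 in
theorem BK_chk : check 4 3 [(0, 1, 1), (0, 2, 129)]
    1 2 129 BK_st = true := by decide +kernel

set_option maxRecDepth 100000 in
theorem BK_all : allD 1 [0] (fun l => match l with
    | [_, i] => relOk (pcode [0, 1, 2, 3, 4, 5, 6] [0, i]) [(0, 1, 1), (0, 2, 129)]
        [(0, 1, (s1 0)), (0, 2, (m1 0))] 129 (m1 0)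
    | _ => true) = true := by decide +kernel

theorem BK {D : Type*} {H : ℕ → D → D → Prop} (hH : Good H) (hR : ∀ K : ℕ → D → D → Prop, Good K → Rules 4 K)
    {i : ℕ} (hi7 : i < 7)
    (hi0 : i ≠ 0)
    {X b zi : D} (q0 : H (s1 0) X b) (q1 : H (m1 0) X zi) :
    H (m1 0) b zi := by
  have h0 := BK_all
  have h1 := allD_step h0 hi7 (nm1 hi0)
  refine rel_sound hH hR BK_chk h1 (fun t => [X, b, zi].getD t X) ?_
  simp only [List.forall_mem_cons]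
  exact ⟨q0, q1, by simp⟩

/-- certificate for `W1` -/
def W1_st : List Step := [
  .pc 0 1 2]

set_option maxRecDepth 100000 in
theorem W1_chk : check 4 3 [(1, 0, 132), (0, 2, 129), (1, 2, 128)]
    0 2 128 W1_st = true := by decide +kernel

set_option maxRecDepth 100000 in
theorem W1_all : allD 1 [0] (fun l => match l with
    | [_, j] => relOk (pcode [0, 2, 1, 3, 4, 5, 6] [0, j]) [(1, 0, 132), (0, 2, 129), (1, 2, 128)]
        [(1, 0, (m1 j)), (0, 2, (m1 0)), (1, 2, 128)] 128 128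
    | _ => true) = true := by decide +kernel

theorem W1 {D : Type*} {H : ℕ → D → D → Prop} (hH : Good H) (hR : ∀ K : ℕ → D → D → Prop, Good K → Rules 4 K)
    {j : ℕ} (hj7 : j < 7)
    (hj0 : j ≠ 0)
    {w g zi : D} (q0 : H (m1 j) g w) (q1 : H (m1 0) w zi) (q2 : H 128 g zi) :
    H 128 w zi := by
  have h0 := W1_all
  have h1 := allD_step h0 hj7 (nm1 hj0)
  refine rel_sound hH hR W1_chk h1 (fun t => [w, g, zi].getD t w) ?_
  simp only [List.forall_mem_cons]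
  exact ⟨q0, q1, q2, by simp⟩

/-- certificate for `L2a` -/
def L2a_st : List Step := [
  .dem 0 129 1 136, .dem 0 129 1 144, .dem 0 129 1 160, .dem 0 129 1 192, .pc 1 0 5, .pc 1 0 6,
  .pc 1 0 7, .pc 1 0 8, .pc 1 0 4, .pc 0 1 2, .pc 0 1 5, .pc 0 1 6, .pc 0 1 7, .pc 0 1 8,
  .pc 2 0 5, .pc 2 0 6, .pc 2 0 7, .pc 2 0 8, .pc 2 0 4, .pc 2 1 5, .pc 2 1 6, .pc 2 1 7,
  .pc 2 1 8, .pc 5 0 3, .pc 5 0 4, .pc 5 1 3, .pc 6 0 3, .pc 6 0 4, .pc 6 1 3, .pc 7 0 3,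
  .pc 7 0 4, .pc 7 1 3, .pc 8 0 3, .pc 8 0 4, .pc 8 1 3, .pc 4 3 5, .pc 4 3 6, .pc 4 3 7,
  .pc 4 3 8, .sp 1 3 4 5 1 2 4, .sp 1 3 4 5 1 2 5, .sp 1 3 4 5 1 2 6, .sp 1 3 4 6 1 2 3,
  .sp 1 3 4 6 1 2 5, .sp 1 3 4 6 1 2 6, .sp 1 3 4 7 1 2 3, .sp 1 3 4 7 1 2 4, .sp 1 3 4 7 1 2 6,
  .sp 1 3 4 8 1 2 3, .sp 1 3 4 8 1 2 4, .sp 1 3 4 8 1 2 5, .pc 4 5 2, .pc 4 6 2, .pc 4 7 2,
  .pc 4 8 2]

set_option maxRecDepth 100000 in
theorem L2a_chk : check 4 5 [(1, 0, 2), (2, 0, 129), (2, 1, 132), (3, 0, 129), (3, 1, 6), (4, 0, 130), (4, 3, 132)]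
    4 2 5 L2a_st = true := by decide +kernel

set_option maxRecDepth 100000 in
theorem L2a_all : allD 2 [0] (fun l => match l with
    | [_, i, j] => relOk (pcode [0, 1, 2, 3, 4, 5, 6] [0, i, j]) [(1, 0, 2), (2, 0, 129), (2, 1, 132), (3, 0, 129), (3, 1, 6), (4, 0, 130), (4, 3, 132)]
        [(1, 0, (s1 i)), (2, 0, (m1 0)), (2, 1, (m1 j)), (3, 0, (m1 0)), (3, 1, (s2 i j)), (4, 0, (m1 i)), (4, 3, (m1 j))] 5 (s2 0 j)
    | _ => true) = true := by decide +kernel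

theorem L2a {D : Type*} {H : ℕ → D → D → Prop} (hH : Good H) (hR : ∀ K : ℕ → D → D → Prop, Good K → Rules 4 K)
    {i j : ℕ} (hi7 : i < 7) (hj7 : j < 7)
    (hi0 : i ≠ 0) (hj0 : j ≠ 0) (hji : j ≠ i)
    {zi q zj u g : D} (q0 : H (s1 i) q zi) (q1 : H (m1 0) zj zi) (q2 : H (m1 j) zj q) (q3 : H (m1 0) u zi) (q4 : H (s2 i j) u q) (q5 : H (m1 i) g zi) (q6 : H (m1 j) g u) :
    H (s2 0 j) g zj := by
  have h0 := L2a_all
  have h1 := allD_step h0 hi7 (nm1 hi0)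
  have h2 := allD_step h1 hj7 (nm2 hj0 hji)
  refine rel_sound hH hR L2a_chk h2 (fun t => [zi, q, zj, u, g].getD t zi) ?_
  simp only [List.forall_mem_cons]
  exact ⟨q0, q1, q2, q3, q4, q5, q6, by simp⟩

/-- certificate for `L2b` -/
def L2b_st : List Step := [
  .pc 1 0 2, .pc 1 0 4, .pc 0 1 2, .pc 2 0 3, .pc 2 0 4, .pc 2 1 3, .pc 4 3 2, .sp 1 3 4 2 1 2 4,
  .sp 1 3 4 2 1 2 5, .sp 1 3 4 2 1 2 6]

set_option maxRecDepth 100000 in
theorem L2b_chk : check 4 5 [(1, 0, 2), (2, 0, 129), (2, 1, 136), (3, 0, 129), (3, 1, 6), (4, 0, 130), (4, 3, 132)]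
    4 2 9 L2b_st = true := by decide +kernel

set_option maxRecDepth 100000 in
theorem L2b_all : allD 3 [0] (fun l => match l with
    | [_, i, j, n] => relOk (pcode [0, 1, 2, 3, 4, 5, 6] [0, i, j, n]) [(1, 0, 2), (2, 0, 129), (2, 1, 136), (3, 0, 129), (3, 1, 6), (4, 0, 130), (4, 3, 132)]
        [(1, 0, (s1 i)), (2, 0, (m1 0)), (2, 1, (m1 n)), (3, 0, (m1 0)), (3, 1, (s2 i j)), (4, 0, (m1 i)), (4, 3, (m1 j))] 9 (s2 0 n)
    | _ => true) = true := by decide +kernel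

theorem L2b {D : Type*} {H : ℕ → D → D → Prop} (hH : Good H) (hR : ∀ K : ℕ → D → D → Prop, Good K → Rules 4 K)
    {i j n : ℕ} (hi7 : i < 7) (hj7 : j < 7) (hn7 : n < 7)
    (hi0 : i ≠ 0) (hj0 : j ≠ 0) (hji : j ≠ i) (hn0 : n ≠ 0) (hni : n ≠ i) (hnj : n ≠ j)
    {zi q zn u g : D} (q0 : H (s1 i) q zi) (q1 : H (m1 0) zn zi) (q2 : H (m1 n) zn q) (q3 : H (m1 0) u zi) (q4 : H (s2 i j) u q) (q5 : H (m1 i) g zi) (q6 : H (m1 j) g u) :
    H (s2 0 n) g zn := by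
  have h0 := L2b_all
  have h1 := allD_step h0 hi7 (nm1 hi0)
  have h2 := allD_step h1 hj7 (nm2 hj0 hji)
  have h3 := allD_step h2 hn7 (nm3 hn0 hni hnj)
  refine rel_sound hH hR L2b_chk h3 (fun t => [zi, q, zn, u, g].getD t zi) ?_
  simp only [List.forall_mem_cons]
  exact ⟨q0, q1, q2, q3, q4, q5, q6, by simp⟩

/-- certificate for `L2q` -/
def L2q_st : List Step := [
  .pc 1 0 2]

set_option maxRecDepth 100000 in
theorem L2q_chk : check 4 3 [(1, 0, 2), (2, 0, 130)]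
    1 2 130 L2q_st = true := by decide +kernel

set_option maxRecDepth 100000 in
theorem L2q_all : allD 1 [0] (fun l => match l with
    | [_, i] => relOk (pcode [0, 1, 2, 3, 4, 5, 6] [0, i]) [(1, 0, 2), (2, 0, 130)]
        [(1, 0, (s1 i)), (2, 0, (m1 i))] 130 (m1 i)
    | _ => true) = true := by decide +kernel

theorem L2q {D : Type*} {H : ℕ → D → D → Prop} (hH : Good H) (hR : ∀ K : ℕ → D → D → Prop, Good K → Rules 4 K)
    {i : ℕ} (hi7 : i < 7)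
    (hi0 : i ≠ 0)
    {zi q g : D} (q0 : H (s1 i) q zi) (q1 : H (m1 i) g zi) :
    H (m1 i) q g := by
  have h0 := L2q_all
  have h1 := allD_step h0 hi7 (nm1 hi0)
  refine rel_sound hH hR L2q_chk h1 (fun t => [zi, q, g].getD t zi) ?_
  simp only [List.forall_mem_cons]
  exact ⟨q0, q1, by simp⟩

/-- certificate for `Mq` -/
def Mq_st : List Step := [
  .dem 0 129 1 136, .dem 0 129 1 144, .dem 0 129 1 160, .dem 0 129 1 192, .pc 1 0 7, .pc 7 0 2,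
  .pc 7 0 3, .pc 7 1 2, .pc 7 1 3, .pc 8 0 2, .pc 8 0 3, .pc 8 1 2, .pc 8 1 3, .pc 9 0 2,
  .pc 9 0 3, .pc 9 1 2, .pc 9 1 3, .pc 10 0 2, .pc 10 0 3, .pc 10 1 2, .pc 10 1 3, .pc 4 2 7,
  .pc 4 2 8, .pc 4 2 9, .pc 4 2 10, .pc 4 3 7, .pc 4 3 8, .pc 4 3 9, .pc 4 3 10, .pc 5 0 7,
  .pc 5 0 8, .pc 5 0 9, .pc 5 0 10, .pc 6 5 7, .pc 6 5 8, .pc 6 5 9, .pc 6 5 10, .pc 6 4 7,
  .pc 6 4 8, .pc 6 4 9, .pc 6 4 10, .pc 6 7 1, .pc 6 8 1, .pc 6 9 1, .pc 6 10 1]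

set_option maxRecDepth 100000 in
theorem Mq_chk : check 4 7 [(1, 0, 2), (2, 0, 129), (2, 1, 6), (3, 0, 129), (3, 1, 6), (4, 2, 132), (4, 3, 130), (0, 5, 1), (5, 6, 1), (6, 4, 134)]
    6 1 6 Mq_st = true := by decide +kernel

set_option maxRecDepth 100000 in
theorem Mq_all : allD 2 [0] (fun l => match l with
    | [_, i, j] => relOk (pcode [0, 1, 2, 3, 4, 5, 6] [0, i, j]) [(1, 0, 2), (2, 0, 129), (2, 1, 6), (3, 0, 129), (3, 1, 6), (4, 2, 132), (4, 3, 130), (0, 5, 1), (5, 6, 1), (6, 4, 134)]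
        [(1, 0, (s1 i)), (2, 0, (m1 0)), (2, 1, (s2 i j)), (3, 0, (m1 0)), (3, 1, (s2 i j)), (4, 2, (m1 j)), (4, 3, (m1 i)), (0, 5, (s1 0)), (5, 6, (s1 0)), (6, 4, (m2 i j))] 6 (s2 i j)
    | _ => true) = true := by decide +kernel

theorem Mq {D : Type*} {H : ℕ → D → D → Prop} (hH : Good H) (hR : ∀ K : ℕ → D → D → Prop, Good K → Rules 4 K)
    {i j : ℕ} (hi7 : i < 7) (hj7 : j < 7)
    (hi0 : i ≠ 0) (hj0 : j ≠ 0) (hji : j ≠ i)
    {zi q u v p x w : D} (q0 : H (s1 i) q zi) (q1 : H (m1 0) u zi) (q2 : H (s2 i j) u q) (q3 : H (m1 0) v zi) (q4 : H (s2 i j) v q) (q5 : H (m1 j) p u) (q6 : H (m1 i) p v) (q7 : H (s1 0) zi x) (q8 : H (s1 0) x w) (q9 : H (m2 i j) w p) :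
    H (s2 i j) w q := by
  have h0 := Mq_all
  have h1 := allD_step h0 hi7 (nm1 hi0)
  have h2 := allD_step h1 hj7 (nm2 hj0 hji)
  refine rel_sound hH hR Mq_chk h2 (fun t => [zi, q, u, v, p, x, w].getD t zi) ?_
  simp only [List.forall_mem_cons]
  exact ⟨q0, q1, q2, q3, q4, q5, q6, q7, q8, q9, by simp⟩

end Pool.Agent.W213.Ly
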