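import Pool.Agent.W213.Ly.Nm

/-! Frame lemmas: certificates. -/

set_option autoImplicit false

namespace Pool.Agent.W213.Ly

/-- certificate for `Mu` -/
def Mu_st : List Step := [
  .dem 0 129 1 136, .dem 0 129 1 144, .dem 0 129 1 160, .dem 0 129 1 192, .pc 1 0 9, .pc 1 0 10,
  .pc 1 0 11, .pc 1 0 12, .pc 0 1 9, .pc 0 1 10, .pc 0 1 11, .pc 0 1 12, .pc 9 0 2, .pc 9 0 4,
  .pc 9 1 2, .pc 9 1 4, .pc 10 0 2, .pc 10 0 4, .pc 10 1 2, .pc 10 1 4, .pc 11 0 2, .pc 11 0 4,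
  .pc 11 1 2, .pc 11 1 4, .pc 12 0 2, .pc 12 0 4, .pc 12 1 2, .pc 12 1 4, .pc 3 2 5, .pc 5 2 9,
  .pc 5 2 10, .pc 5 2 11, .pc 5 2 12, .pc 5 4 9, .pc 5 4 10, .pc 5 4 11, .pc 5 4 12, .pc 6 0 9,
  .pc 6 0 10, .pc 6 0 11, .pc 6 0 12, .pc 6 0 2, .pc 7 6 9, .pc 7 6 10, .pc 7 6 11, .pc 7 6 12,
  .pc 7 6 2, .pc 7 5 9, .pc 7 5 10, .pc 7 5 11, .pc 7 5 12, .pc 8 0 1, .pc 8 0 9, .pc 8 0 10,
  .pc 8 0 11, .pc 8 0 12, .pc 8 0 3, .pc 8 0 6, .pc 8 7 9, .pc 8 7 10, .pc 8 7 11, .pc 8 7 12,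
  .pc 7 9 1, .pc 7 10 1, .pc 7 11 1, .pc 7 12 1, .sp 1 7 8 9 1 2 4, .sp 1 7 8 9 1 2 5,
  .sp 1 7 8 9 1 2 6, .sp 1 7 8 10 1 2 3, .sp 1 7 8 10 1 2 5, .sp 1 7 8 10 1 2 6,
  .sp 1 7 8 11 1 2 3, .sp 1 7 8 11 1 2 4, .sp 1 7 8 11 1 2 6, .sp 1 7 8 12 1 2 3,
  .sp 1 7 8 12 1 2 4, .sp 1 7 8 12 1 2 5, .pc 8 9 2, .pc 8 10 2, .pc 8 11 2, .pc 8 12 2,
  .dem 5 132 7 130, .pc 13 5 2, .pc 13 5 3, .pc 13 7 6, .sp 5 7 13 6 2 1 3, .sp 5 7 13 6 2 1 4,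
  .sp 5 7 13 6 2 1 5, .sp 5 7 13 6 2 1 6, .dem 6 1 8 3, .pc 14 6 2, .pc 14 6 7, .pc 14 6 13,
  .pc 14 8 7, .pc 14 7 13, .pc 14 13 2, .pc 2 14 8, .ra 8 2 7 13 2 0 1 2, .c1 8 13 3 7 1 2]

set_option maxRecDepth 100000 in
theorem Mu_chk : check 4 9 [(1, 0, 2), (2, 0, 129), (2, 1, 6), (3, 0, 130), (3, 2, 132), (4, 0, 129), (4, 1, 6), (5, 2, 132), (5, 4, 130), (0, 6, 1), (6, 5, 7), (6, 7, 1), (7, 5, 134), (8, 0, 130), (8, 7, 132)]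
    3 7 134 Mu_st = true := by decide +kernel

set_option maxRecDepth 100000 in
theorem Mu_all : allD 2 [0] (fun l => match l with
    | [_, i, j] => relOk (pcode [0, 1, 2, 3, 4, 5, 6] [0, i, j]) [(1, 0, 2), (2, 0, 129), (2, 1, 6), (3, 0, 130), (3, 2, 132), (4, 0, 129), (4, 1, 6), (5, 2, 132), (5, 4, 130), (0, 6, 1), (6, 5, 7), (6, 7, 1), (7, 5, 134), (8, 0, 130), (8, 7, 132)]
        [(1, 0, (s1 i)), (2, 0, (m1 0)), (2, 1, (s2 i j)), (3, 0, (m1 i)), (3, 2, (m1 j)), (4, 0, (m1 0)), (4, 1, (s2 i j)), (5, 2, (m1 j)), (5, 4, (m1 i)), (0, 6, (s1 0)), (6, 5, (s3 0 i j)), (6, 7, (s1 0)), (7, 5, (m2 i j)), (8, 0, (m1 i)), (8, 7, (m1 j))] 134 (m2 i j)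
    | _ => true) = true := by decide +kernel

theorem Mu {D : Type*} {H : ℕ → D → D → Prop} (hH : Good H) (hR : ∀ K : ℕ → D → D → Prop, Good K → Rules 4 K)
    {i j : ℕ} (hi7 : i < 7) (hj7 : j < 7)
    (hi0 : i ≠ 0) (hj0 : j ≠ 0) (hji : j ≠ i)
    {zi q u g v p x w gw : D} (q0 : H (s1 i) q zi) (q1 : H (m1 0) u zi) (q2 : H (s2 i j) u q) (q3 : H (m1 i) g zi) (q4 : H (m1 j) g u) (q5 : H (m1 0) v zi) (q6 : H (s2 i j) v q) (q7 : H (m1 j) p u) (q8 : H (m1 i) p v) (q9 : H (s1 0) zi x) (q10 : H (s3 0 i j) x p) (q11 : H (s1 0) x w) (q12 : H (m2 i j) w p) (q13 : H (m1 i) gw zi) (q14 : H (m1 j) gw w) :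
    H (m2 i j) g w := by
  have h0 := Mu_all
  have h1 := allD_step h0 hi7 (nm1 hi0)
  have h2 := allD_step h1 hj7 (nm2 hj0 hji)
  refine rel_sound hH hR Mu_chk h2 (fun t => [zi, q, u, g, v, p, x, w, gw].getD t zi) ?_
  simp only [List.forall_mem_cons]
  exact ⟨q0, q1, q2, q3, q4, q5, q6, q7, q8, q9, q10, q11, q12, q13, q14, by simp⟩

/-- certificate for `Mv` -/
def Mv_st : List Step := [
  .dem 0 129 1 136, .dem 0 129 1 144, .dem 0 129 1 160, .dem 0 129 1 192, .pc 1 0 9, .pc 1 0 10,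
  .pc 1 0 11, .pc 1 0 12, .pc 0 1 9, .pc 0 1 10, .pc 0 1 11, .pc 0 1 12, .pc 9 0 2, .pc 9 0 3,
  .pc 9 1 2, .pc 9 1 3, .pc 10 0 2, .pc 10 0 3, .pc 10 1 2, .pc 10 1 3, .pc 11 0 2, .pc 11 0 3,
  .pc 11 1 2, .pc 11 1 3, .pc 12 0 2, .pc 12 0 3, .pc 12 1 2, .pc 12 1 3, .pc 5 2 9, .pc 5 2 10,
  .pc 5 2 11, .pc 5 2 12, .pc 5 3 9, .pc 5 3 10, .pc 5 3 11, .pc 5 3 12, .pc 6 0 9, .pc 6 0 10,
  .pc 6 0 11, .pc 6 0 12, .pc 6 0 3, .pc 7 6 9, .pc 7 6 10, .pc 7 6 11, .pc 7 6 12, .pc 7 6 3,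
  .pc 7 5 9, .pc 7 5 10, .pc 7 5 11, .pc 7 5 12, .pc 8 0 1, .pc 8 0 9, .pc 8 0 10, .pc 8 0 11,
  .pc 8 0 12, .pc 8 0 4, .pc 8 0 6, .pc 8 7 9, .pc 8 7 10, .pc 8 7 11, .pc 8 7 12, .pc 7 9 1,
  .pc 7 10 1, .pc 7 11 1, .pc 7 12 1, .sp 1 7 8 9 1 2 4, .sp 1 7 8 9 1 2 5, .sp 1 7 8 9 1 2 6,
  .sp 1 7 8 10 1 2 3, .sp 1 7 8 10 1 2 5, .sp 1 7 8 10 1 2 6, .sp 1 7 8 11 1 2 3,
  .sp 1 7 8 11 1 2 4, .sp 1 7 8 11 1 2 6, .sp 1 7 8 12 1 2 3, .sp 1 7 8 12 1 2 4,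
  .sp 1 7 8 12 1 2 5, .pc 8 9 3, .pc 8 10 3, .pc 8 11 3, .pc 8 12 3, .dem 5 130 7 132, .pc 13 5 3,
  .pc 13 7 6, .pc 13 7 8, .sp 5 7 13 6 1 2 3, .sp 5 7 13 6 1 2 4, .sp 5 7 13 6 1 2 5,
  .sp 5 7 13 6 1 2 6, .dem 6 1 8 3, .pc 14 6 3, .pc 14 6 13, .pc 14 8 13, .pc 14 13 3, .pc 3 14 8,
  .dem 3 132 8 129, .pc 15 3 4, .c1 3 8 7 15 0 2, .ra 7 15 8 4 2 0 1 2]

set_option maxRecDepth 100000 in
theorem Mv_chk : check 4 9 [(1, 0, 2), (2, 0, 129), (2, 1, 6), (3, 0, 129), (3, 1, 6), (4, 0, 130), (4, 3, 132), (5, 2, 132), (5, 3, 130), (0, 6, 1), (6, 5, 7), (6, 7, 1), (7, 5, 134), (8, 0, 130), (8, 7, 132)]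
    7 4 134 Mv_st = true := by decide +kernel

set_option maxRecDepth 100000 in
theorem Mv_all : allD 2 [0] (fun l => match l with
    | [_, i, j] => relOk (pcode [0, 1, 2, 3, 4, 5, 6] [0, i, j]) [(1, 0, 2), (2, 0, 129), (2, 1, 6), (3, 0, 129), (3, 1, 6), (4, 0, 130), (4, 3, 132), (5, 2, 132), (5, 3, 130), (0, 6, 1), (6, 5, 7), (6, 7, 1), (7, 5, 134), (8, 0, 130), (8, 7, 132)]
        [(1, 0, (s1 i)), (2, 0, (m1 0)), (2, 1, (s2 i j)), (3, 0, (m1 0)), (3, 1, (s2 i j)), (4, 0, (m1 i)), (4, 3, (m1 j)), (5, 2, (m1 j)), (5, 3, (m1 i)), (0, 6, (s1 0)), (6, 5, (s3 0 i j)), (6, 7, (s1 0)), (7, 5, (m2 i j)), (8, 0, (m1 i)), (8, 7, (m1 j))] 134 (m2 i j)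
    | _ => true) = true := by decide +kernel

theorem Mv {D : Type*} {H : ℕ → D → D → Prop} (hH : Good H) (hR : ∀ K : ℕ → D → D → Prop, Good K → Rules 4 K)
    {i j : ℕ} (hi7 : i < 7) (hj7 : j < 7)
    (hi0 : i ≠ 0) (hj0 : j ≠ 0) (hji : j ≠ i)
    {zi q u v gv p x w gw : D} (q0 : H (s1 i) q zi) (q1 : H (m1 0) u zi) (q2 : H (s2 i j) u q) (q3 : H (m1 0) v zi) (q4 : H (s2 i j) v q) (q5 : H (m1 i) gv zi) (q6 : H (m1 j) gv v) (q7 : H (m1 j) p u) (q8 : H (m1 i) p v) (q9 : H (s1 0) zi x) (q10 : H (s3 0 i j) x p) (q11 : H (s1 0) x w) (q12 : H (m2 i j) w p) (q13 : H (m1 i) gw zi) (q14 : H (m1 j) gw w) :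
    H (m2 i j) w gv := by
  have h0 := Mv_all
  have h1 := allD_step h0 hi7 (nm1 hi0)
  have h2 := allD_step h1 hj7 (nm2 hj0 hji)
  refine rel_sound hH hR Mv_chk h2 (fun t => [zi, q, u, v, gv, p, x, w, gw].getD t zi) ?_
  simp only [List.forall_mem_cons]
  exact ⟨q0, q1, q2, q3, q4, q5, q6, q7, q8, q9, q10, q11, q12, q13, q14, by simp⟩

/-- certificate for `E3` -/
def E3_st : List Step := [
  .pc 2 1 4, .dem 0 132 4 130, .pc 5 4 3, .c1 0 4 2 5 1 2, .ra 2 5 0 3 1 2 0 1]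

set_option maxRecDepth 100000 in
theorem E3_chk : check 4 5 [(2, 0, 130), (2, 1, 132), (3, 0, 129), (4, 1, 132), (4, 3, 130), (4, 0, 134)]
    2 3 131 E3_st = true := by decide +kernel

set_option maxRecDepth 100000 in
theorem E3_all : allD 2 [0] (fun l => match l with
    | [_, i, j] => relOk (pcode [0, 1, 2, 3, 4, 5, 6] [0, i, j]) [(2, 0, 130), (2, 1, 132), (3, 0, 129), (4, 1, 132), (4, 3, 130), (4, 0, 134)]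
        [(2, 0, (m1 i)), (2, 1, (m1 j)), (3, 0, (m1 0)), (4, 1, (m1 j)), (4, 3, (m1 i)), (4, 0, (m2 i j))] 131 (m2 0 i)
    | _ => true) = true := by decide +kernel

theorem E3 {D : Type*} {H : ℕ → D → D → Prop} (hH : Good H) (hR : ∀ K : ℕ → D → D → Prop, Good K → Rules 4 K)
    {i j : ℕ} (hi7 : i < 7) (hj7 : j < 7)
    (hi0 : i ≠ 0) (hj0 : j ≠ 0) (hji : j ≠ i)
    {zi u g v p : D} (q0 : H (m1 i) g zi) (q1 : H (m1 j) g u) (q2 : H (m1 0) v zi) (q3 : H (m1 j) p u) (q4 : H (m1 i) p v) (q5 : H (m2 i j) p zi) :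
    H (m2 0 i) g v := by
  have h0 := E3_all
  have h1 := allD_step h0 hi7 (nm1 hi0)
  have h2 := allD_step h1 hj7 (nm2 hj0 hji)
  refine rel_sound hH hR E3_chk h2 (fun t => [zi, u, g, v, p].getD t zi) ?_
  simp only [List.forall_mem_cons]
  exact ⟨q0, q1, q2, q3, q4, q5, by simp⟩

end Pool.Agent.W213.Ly
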