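import Pool.Agent.W213.Ly.Nm

/-! Frame lemmas: certificates. -/

set_option autoImplicit false

namespace Pool.Agent.W213.Ly

/-- certificate for `E1i` -/
def E1i_st : List Step := [
  .dem 0 129 1 136, .dem 0 129 1 144, .dem 0 129 1 160, .dem 0 129 1 192, .pc 1 0 8, .pc 1 0 9,
  .pc 1 0 10, .pc 1 0 11, .pc 1 0 4, .pc 1 0 6, .pc 0 1 2, .pc 0 1 8, .pc 0 1 9, .pc 0 1 10,
  .pc 0 1 11, .pc 2 0 8, .pc 2 0 9, .pc 2 0 10, .pc 2 0 11, .pc 2 0 4, .pc 2 0 6, .pc 2 1 8,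
  .pc 2 1 9, .pc 2 1 10, .pc 2 1 11, .pc 8 0 9, .pc 8 0 10, .pc 8 0 11, .pc 8 0 3, .pc 8 0 4,
  .pc 8 0 5, .pc 8 0 6, .pc 8 0 7, .pc 8 1 3, .pc 8 1 5, .pc 9 0 10, .pc 9 0 11, .pc 9 0 3,
  .pc 9 0 4, .pc 9 0 5, .pc 9 0 6, .pc 9 0 7, .pc 9 1 3, .pc 9 1 5, .pc 10 0 11, .pc 10 0 3,
  .pc 10 0 4, .pc 10 0 5, .pc 10 0 6, .pc 10 0 7, .pc 10 1 3, .pc 10 1 5, .pc 11 0 3, .pc 11 0 4,
  .pc 11 0 5, .pc 11 0 6, .pc 11 0 7, .pc 11 1 3, .pc 11 1 5, .pc 3 0 5, .pc 3 0 7, .pc 4 0 6,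
  .pc 4 3 8, .pc 4 3 9, .pc 4 3 10, .pc 4 3 11, .pc 6 5 8, .pc 6 5 9, .pc 6 5 10, .pc 6 5 11,
  .sp 1 3 4 8 1 2 4, .sp 1 3 4 8 1 2 5, .sp 1 3 4 8 1 2 6, .sp 1 3 4 9 1 2 3, .sp 1 3 4 9 1 2 5,
  .sp 1 3 4 9 1 2 6, .sp 1 3 4 10 1 2 3, .sp 1 3 4 10 1 2 4, .sp 1 3 4 10 1 2 6,
  .sp 1 3 4 11 1 2 3, .sp 1 3 4 11 1 2 4, .sp 1 3 4 11 1 2 5, .sp 1 5 6 8 1 2 4, .sp 1 5 6 8 1 2 5,
  .sp 1 5 6 8 1 2 6, .sp 1 5 6 9 1 2 3, .sp 1 5 6 9 1 2 5, .sp 1 5 6 9 1 2 6, .sp 1 5 6 10 1 2 3,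
  .sp 1 5 6 10 1 2 4, .sp 1 5 6 10 1 2 6, .sp 1 5 6 11 1 2 3, .sp 1 5 6 11 1 2 4,
  .sp 1 5 6 11 1 2 5, .pc 4 8 2, .pc 4 9 2, .pc 4 10 2, .pc 4 11 2, .pc 6 8 2, .pc 6 9 2,
  .pc 6 10 2, .pc 6 11 2, .dem 8 129 4 136, .dem 9 129 4 144, .dem 10 129 4 160, .dem 11 129 4 192,
  .dem 4 132 5 130, .pc 12 8 2, .pc 12 8 9, .pc 12 8 10, .pc 12 8 11, .pc 12 8 3, .pc 12 8 7,
  .pc 12 4 2, .pc 12 4 9, .pc 12 4 10, .pc 12 4 11, .pc 13 9 2, .pc 13 9 8, .pc 13 9 10,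
  .pc 13 9 11, .pc 13 9 3, .pc 13 9 7, .pc 13 4 2, .pc 13 4 8, .pc 13 4 10, .pc 13 4 11,
  .pc 14 10 2, .pc 14 10 8, .pc 14 10 9, .pc 14 10 11, .pc 14 10 3, .pc 14 10 7, .pc 14 4 2,
  .pc 14 4 8, .pc 14 4 9, .pc 14 4 11, .pc 15 11 2, .pc 15 11 8, .pc 15 11 9, .pc 15 11 10,
  .pc 15 11 3, .pc 15 11 7, .pc 15 4 2, .pc 15 4 8, .pc 15 4 9, .pc 15 4 10, .pc 16 4 3,
  .pc 12 2 6, .pc 12 9 6, .pc 12 10 6, .pc 12 11 6, .pc 13 2 6, .pc 13 8 6, .pc 13 10 6,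
  .pc 13 11 6, .pc 14 2 6, .pc 14 8 6, .pc 14 9 6, .pc 14 11 6, .pc 15 2 6, .pc 15 8 6, .pc 15 9 6,
  .pc 15 10 6, .c1 4 5 6 16 1 2, .ra 6 16 5 3 2 1 0 2, .dem 3 1 1 6, .pc 17 3 8, .pc 17 3 9,
  .pc 17 3 10, .pc 17 3 11, .pc 17 3 4, .pc 17 3 6, .pc 17 3 12, .pc 17 3 13, .pc 17 3 14,
  .pc 17 3 15, .pc 17 1 8, .pc 17 1 9, .pc 17 1 10, .pc 17 1 11, .pc 17 8 4, .pc 17 8 6,
  .pc 17 9 4, .pc 17 9 6, .pc 17 10 4, .pc 17 10 6, .pc 17 11 4, .pc 17 11 6, .pc 17 4 12,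
  .pc 17 4 13, .pc 17 4 14, .pc 17 4 15, .pc 6 17 12, .pc 6 17 13, .pc 6 17 14, .pc 6 17 15,
  .dem 7 1 4 3, .pc 18 7 3, .pc 18 7 12, .pc 18 7 13, .pc 18 7 14, .pc 18 7 15, .pc 18 4 3,
  .pc 18 4 12, .pc 18 4 13, .pc 18 4 14, .pc 18 4 15, .pc 18 3 6, .pc 18 12 6, .pc 18 13 6,
  .pc 18 14 6, .pc 18 15 6, .pc 6 18 7]

set_option maxRecDepth 100000 in
theorem E1i_chk : check 4 8 [(1, 0, 2), (2, 0, 129), (2, 1, 132), (3, 0, 129), (3, 1, 6), (4, 0, 130), (4, 3, 132), (5, 0, 129), (5, 1, 6), (6, 0, 130), (6, 5, 132), (5, 4, 134), (7, 0, 129), (7, 4, 253)]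
    6 7 253 E1i_st = true := by decide +kernel

set_option maxRecDepth 100000 in
theorem E1i_all : allD 2 [0] (fun l => match l with
    | [_, i, j] => relOk (pcode [0, 1, 2, 3, 4, 5, 6] [0, i, j]) [(1, 0, 2), (2, 0, 129), (2, 1, 132), (3, 0, 129), (3, 1, 6), (4, 0, 130), (4, 3, 132), (5, 0, 129), (5, 1, 6), (6, 0, 130), (6, 5, 132), (5, 4, 134), (7, 0, 129), (7, 4, 253)]
        [(1, 0, (s1 i)), (2, 0, (m1 0)), (2, 1, (m1 j)), (3, 0, (m1 0)), (3, 1, (s2 i j)), (4, 0, (m1 i)), (4, 3, (m1 j)), (5, 0, (m1 0)), (5, 1, (s2 i j)), (6, 0, (m1 i)), (6, 5, (m1 j)), (5, 4, (m2 i j)), (7, 0, (m1 0)), (7, 4, (nx i))] 253 (nx i)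
    | _ => true) = true := by decide +kernel

theorem E1i {D : Type*} {H : ℕ → D → D → Prop} (hH : Good H) (hR : ∀ K : ℕ → D → D → Prop, Good K → Rules 4 K)
    {i j : ℕ} (hi7 : i < 7) (hj7 : j < 7)
    (hi0 : i ≠ 0) (hj0 : j ≠ 0) (hji : j ≠ i)
    {zi q zj u g w gw X : D} (q0 : H (s1 i) q zi) (q1 : H (m1 0) zj zi) (q2 : H (m1 j) zj q) (q3 : H (m1 0) u zi) (q4 : H (s2 i j) u q) (q5 : H (m1 i) g zi) (q6 : H (m1 j) g u) (q7 : H (m1 0) w zi) (q8 : H (s2 i j) w q) (q9 : H (m1 i) gw zi) (q10 : H (m1 j) gw w) (q11 : H (m2 i j) w g) (q12 : H (m1 0) X zi) (q13 : H (nx i) X g) :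
    H (nx i) gw X := by
  have h0 := E1i_all
  have h1 := allD_step h0 hi7 (nm1 hi0)
  have h2 := allD_step h1 hj7 (nm2 hj0 hji)
  refine rel_sound hH hR E1i_chk h2 (fun t => [zi, q, zj, u, g, w, gw, X].getD t zi) ?_
  simp only [List.forall_mem_cons]
  exact ⟨q0, q1, q2, q3, q4, q5, q6, q7, q8, q9, q10, q11, q12, q13, by simp⟩

/-- certificate for `E1j` -/
def E1j_st : List Step := [
  .dem 0 129 1 136, .pc 6 0 3, .pc 6 0 5, .pc 2 0 4, .dem 6 129 4 136, .pc 7 6 3, .pc 7 6 5,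
  .ra 2 3 4 7 1 2 3 0, .dem 5 1 2 5, .pc 8 5 7, .pc 8 2 4, .pc 8 2 7, .pc 8 7 4, .sp 2 7 4 8 1 3 4,
  .sp 2 7 4 8 1 3 5, .sp 2 7 4 8 1 3 6, .pc 4 8 5]

set_option maxRecDepth 100000 in
theorem E1j_chk : check 4 6 [(2, 0, 130), (3, 0, 129), (4, 0, 130), (4, 3, 132), (3, 2, 134), (5, 0, 129), (5, 2, 251)]
    4 5 251 E1j_st = true := by decide +kernel

set_option maxRecDepth 100000 in
theorem E1j_all : allD 2 [0] (fun l => match l with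
    | [_, i, j] => relOk (pcode [0, 1, 2, 3, 4, 5, 6] [0, i, j]) [(2, 0, 130), (3, 0, 129), (4, 0, 130), (4, 3, 132), (3, 2, 134), (5, 0, 129), (5, 2, 251)]
        [(2, 0, (m1 i)), (3, 0, (m1 0)), (4, 0, (m1 i)), (4, 3, (m1 j)), (3, 2, (m2 i j)), (5, 0, (m1 0)), (5, 2, (nx j))] 251 (nx j)
    | _ => true) = true := by decide +kernel

theorem E1j {D : Type*} {H : ℕ → D → D → Prop} (hH : Good H) (hR : ∀ K : ℕ → D → D → Prop, Good K → Rules 4 K)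
    {i j : ℕ} (hi7 : i < 7) (hj7 : j < 7)
    (hi0 : i ≠ 0) (hj0 : j ≠ 0) (hji : j ≠ i)
    {zi q g w gw X : D} (q0 : H (m1 i) g zi) (q1 : H (m1 0) w zi) (q2 : H (m1 i) gw zi) (q3 : H (m1 j) gw w) (q4 : H (m2 i j) w g) (q5 : H (m1 0) X zi) (q6 : H (nx j) X g) :
    H (nx j) gw X := by
  have h0 := E1j_all
  have h1 := allD_step h0 hi7 (nm1 hi0)
  have h2 := allD_step h1 hj7 (nm2 hj0 hji)
  refine rel_sound hH hR E1j_chk h2 (fun t => [zi, q, g, w, gw, X].getD t zi) ?_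
  simp only [List.forall_mem_cons]
  exact ⟨q0, q1, q2, q3, q4, q5, q6, by simp⟩

/-- certificate for `E1n` -/
def E1n_st : List Step := [
  .pc 1 0 3, .pc 2 0 4, .dem 4 1 1 9, .pc 5 4 2, .pc 5 1 2, .pc 5 1 3, .pc 5 2 3,
  .sp 1 2 3 5 1 2 4, .sp 1 2 3 5 1 2 5, .sp 1 2 3 5 1 2 6, .pc 3 5 4]

set_option maxRecDepth 100000 in
theorem E1n_chk : check 4 5 [(1, 0, 130), (2, 0, 129), (3, 0, 130), (3, 2, 132), (2, 1, 134), (4, 0, 129), (4, 1, 247)]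
    3 4 247 E1n_st = true := by decide +kernel

set_option maxRecDepth 100000 in
theorem E1n_all : allD 3 [0] (fun l => match l with
    | [_, i, j, n] => relOk (pcode [0, 1, 2, 3, 4, 5, 6] [0, i, j, n]) [(1, 0, 130), (2, 0, 129), (3, 0, 130), (3, 2, 132), (2, 1, 134), (4, 0, 129), (4, 1, 247)]
        [(1, 0, (m1 i)), (2, 0, (m1 0)), (3, 0, (m1 i)), (3, 2, (m1 j)), (2, 1, (m2 i j)), (4, 0, (m1 0)), (4, 1, (nx n))] 247 (nx n)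
    | _ => true) = true := by decide +kernel

theorem E1n {D : Type*} {H : ℕ → D → D → Prop} (hH : Good H) (hR : ∀ K : ℕ → D → D → Prop, Good K → Rules 4 K)
    {i j n : ℕ} (hi7 : i < 7) (hj7 : j < 7) (hn7 : n < 7)
    (hi0 : i ≠ 0) (hj0 : j ≠ 0) (hji : j ≠ i) (hn0 : n ≠ 0) (hni : n ≠ i) (hnj : n ≠ j)
    {zi g w gw X : D} (q0 : H (m1 i) g zi) (q1 : H (m1 0) w zi) (q2 : H (m1 i) gw zi) (q3 : H (m1 j) gw w) (q4 : H (m2 i j) w g) (q5 : H (m1 0) X zi) (q6 : H (nx n) X g) :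
    H (nx n) gw X := by
  have h0 := E1n_all
  have h1 := allD_step h0 hi7 (nm1 hi0)
  have h2 := allD_step h1 hj7 (nm2 hj0 hji)
  have h3 := allD_step h2 hn7 (nm3 hn0 hni hnj)
  refine rel_sound hH hR E1n_chk h3 (fun t => [zi, g, w, gw, X].getD t zi) ?_
  simp only [List.forall_mem_cons]
  exact ⟨q0, q1, q2, q3, q4, q5, q6, by simp⟩

end Pool.Agent.W213.Ly
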