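import Pool.Agent.W213.Ly.Nm

/-! Frame lemmas: certificates. -/

set_option autoImplicit false

namespace Pool.Agent.W213.Ly

/-- certificate for `E2i` -/
def E2i_st : List Step := [
  .dem 0 129 1 136, .dem 0 129 1 144, .dem 0 129 1 160, .dem 0 129 1 192, .pc 1 0 8, .pc 1 0 9,
  .pc 1 0 10, .pc 1 0 11, .pc 1 0 4, .pc 0 1 2, .pc 0 1 8, .pc 0 1 9, .pc 0 1 10, .pc 0 1 11,
  .pc 2 0 8, .pc 2 0 9, .pc 2 0 10, .pc 2 0 11, .pc 2 0 4, .pc 2 1 8, .pc 2 1 9, .pc 2 1 10,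
  .pc 2 1 11, .pc 8 0 9, .pc 8 0 10, .pc 8 0 11, .pc 8 0 3, .pc 8 0 4, .pc 8 0 7, .pc 8 1 3,
  .pc 9 0 10, .pc 9 0 11, .pc 9 0 3, .pc 9 0 4, .pc 9 0 7, .pc 9 1 3, .pc 10 0 11, .pc 10 0 3,
  .pc 10 0 4, .pc 10 0 7, .pc 10 1 3, .pc 11 0 3, .pc 11 0 4, .pc 11 0 7, .pc 11 1 3, .pc 3 0 7,
  .pc 4 3 8, .pc 4 3 9, .pc 4 3 10, .pc 4 3 11, .sp 1 3 4 8 1 2 4, .sp 1 3 4 8 1 2 5,
  .sp 1 3 4 8 1 2 6, .sp 1 3 4 9 1 2 3, .sp 1 3 4 9 1 2 5, .sp 1 3 4 9 1 2 6, .sp 1 3 4 10 1 2 3,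
  .sp 1 3 4 10 1 2 4, .sp 1 3 4 10 1 2 6, .sp 1 3 4 11 1 2 3, .sp 1 3 4 11 1 2 4,
  .sp 1 3 4 11 1 2 5, .pc 4 8 2, .pc 4 9 2, .pc 4 10 2, .pc 4 11 2, .dem 8 129 4 136,
  .dem 9 129 4 144, .dem 10 129 4 160, .dem 11 129 4 192, .pc 12 8 2, .pc 12 8 9, .pc 12 8 10,
  .pc 12 8 11, .pc 12 8 3, .pc 12 8 7, .pc 12 4 2, .pc 12 4 9, .pc 12 4 10, .pc 12 4 11,
  .pc 13 9 2, .pc 13 9 8, .pc 13 9 10, .pc 13 9 11, .pc 13 9 3, .pc 13 9 7, .pc 13 4 2, .pc 13 4 8,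
  .pc 13 4 10, .pc 13 4 11, .pc 14 10 2, .pc 14 10 8, .pc 14 10 9, .pc 14 10 11, .pc 14 10 3,
  .pc 14 10 7, .pc 14 4 2, .pc 14 4 8, .pc 14 4 9, .pc 14 4 11, .pc 15 11 2, .pc 15 11 8,
  .pc 15 11 9, .pc 15 11 10, .pc 15 11 3, .pc 15 11 7, .pc 15 4 2, .pc 15 4 8, .pc 15 4 9,
  .pc 15 4 10, .pc 12 9 1, .pc 12 10 1, .pc 12 11 1, .pc 13 8 1, .pc 13 10 1, .pc 13 11 1,
  .pc 14 8 1, .pc 14 9 1, .pc 14 11 1, .pc 15 8 1, .pc 15 9 1, .pc 15 10 1, .pc 3 5 6, .pc 5 3 8,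
  .pc 5 3 9, .pc 5 3 10, .pc 5 3 11, .pc 5 3 4, .pc 5 3 12, .pc 5 3 13, .pc 5 3 14, .pc 5 3 15,
  .pc 5 1 8, .pc 5 1 9, .pc 5 1 10, .pc 5 1 11, .pc 6 2 1, .pc 6 2 12, .pc 6 2 13, .pc 6 2 14,
  .pc 6 2 15, .pc 5 8 4, .pc 5 9 4, .pc 5 10 4, .pc 5 11 4, .pc 5 4 12, .pc 5 4 13, .pc 5 4 14,
  .pc 5 4 15, .pc 12 5 6, .pc 13 5 6, .pc 14 5 6, .pc 15 5 6, .sp 1 5 6 3 2 1 3, .sp 1 5 6 3 2 1 4,
  .sp 1 5 6 3 2 1 5, .sp 1 5 6 3 2 1 6, .sp 1 5 6 12 2 1 4, .sp 1 5 6 12 2 1 5, .sp 1 5 6 12 2 1 6,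
  .sp 1 5 6 13 2 1 3, .sp 1 5 6 13 2 1 5, .sp 1 5 6 13 2 1 6, .sp 1 5 6 14 2 1 3,
  .sp 1 5 6 14 2 1 4, .sp 1 5 6 14 2 1 6, .sp 1 5 6 15 2 1 3, .sp 1 5 6 15 2 1 4,
  .sp 1 5 6 15 2 1 5, .dem 7 1 4 3, .pc 16 7 3, .pc 16 7 12, .pc 16 7 13, .pc 16 7 14, .pc 16 7 15,
  .pc 16 4 3, .pc 16 4 12, .pc 16 4 13, .pc 16 4 14, .pc 16 4 15, .pc 16 3 6, .pc 16 12 6,
  .pc 16 13 6, .pc 16 14 6, .pc 16 15 6, .pc 6 16 7]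

set_option maxRecDepth 100000 in
theorem E2i_chk : check 4 8 [(1, 0, 2), (2, 0, 129), (2, 1, 132), (3, 0, 129), (3, 1, 6), (4, 0, 130), (4, 3, 132), (7, 0, 129), (7, 4, 253), (3, 5, 1), (5, 1, 6), (6, 2, 132), (6, 5, 130)]
    6 7 253 E2i_st = true := by decide +kernel

set_option maxRecDepth 100000 in
theorem E2i_all : allD 2 [0] (fun l => match l with
    | [_, i, j] => relOk (pcode [0, 1, 2, 3, 4, 5, 6] [0, i, j]) [(1, 0, 2), (2, 0, 129), (2, 1, 132), (3, 0, 129), (3, 1, 6), (4, 0, 130), (4, 3, 132), (7, 0, 129), (7, 4, 253), (3, 5, 1), (5, 1, 6), (6, 2, 132), (6, 5, 130)]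
        [(1, 0, (s1 i)), (2, 0, (m1 0)), (2, 1, (m1 j)), (3, 0, (m1 0)), (3, 1, (s2 i j)), (4, 0, (m1 i)), (4, 3, (m1 j)), (7, 0, (m1 0)), (7, 4, (nx i)), (3, 5, (s1 0)), (5, 1, (s2 i j)), (6, 2, (m1 j)), (6, 5, (m1 i))] 253 (nx i)
    | _ => true) = true := by decide +kernel

theorem E2i {D : Type*} {H : ℕ → D → D → Prop} (hH : Good H) (hR : ∀ K : ℕ → D → D → Prop, Good K → Rules 4 K)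
    {i j : ℕ} (hi7 : i < 7) (hj7 : j < 7)
    (hi0 : i ≠ 0) (hj0 : j ≠ 0) (hji : j ≠ i)
    {zi q zj u g cu hu X : D} (q0 : H (s1 i) q zi) (q1 : H (m1 0) zj zi) (q2 : H (m1 j) zj q) (q3 : H (m1 0) u zi) (q4 : H (s2 i j) u q) (q5 : H (m1 i) g zi) (q6 : H (m1 j) g u) (q7 : H (m1 0) X zi) (q8 : H (nx i) X g) (q9 : H (s1 0) u cu) (q10 : H (s2 i j) cu q) (q11 : H (m1 j) hu zj) (q12 : H (m1 i) hu cu) :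
    H (nx i) hu X := by
  have h0 := E2i_all
  have h1 := allD_step h0 hi7 (nm1 hi0)
  have h2 := allD_step h1 hj7 (nm2 hj0 hji)
  refine rel_sound hH hR E2i_chk h2 (fun t => [zi, q, zj, u, g, cu, hu, X].getD t zi) ?_
  simp only [List.forall_mem_cons]
  exact ⟨q0, q1, q2, q3, q4, q5, q6, q7, q8, q9, q10, q11, q12, by simp⟩

/-- certificate for `E2j` -/
def E2j_st : List Step := [
  .dem 0 129 1 136, .dem 0 129 1 144, .dem 0 129 1 160, .dem 0 129 1 192, .pc 1 0 8, .pc 1 0 9,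
  .pc 1 0 10, .pc 1 0 11, .pc 1 0 4, .pc 0 1 2, .pc 0 1 8, .pc 0 1 9, .pc 0 1 10, .pc 0 1 11,
  .pc 2 0 8, .pc 2 0 9, .pc 2 0 10, .pc 2 0 11, .pc 2 0 4, .pc 2 1 8, .pc 2 1 9, .pc 2 1 10,
  .pc 2 1 11, .pc 8 0 9, .pc 8 0 10, .pc 8 0 11, .pc 8 0 3, .pc 8 0 4, .pc 8 0 7, .pc 8 1 3,
  .pc 9 0 10, .pc 9 0 11, .pc 9 0 3, .pc 9 0 4, .pc 9 0 7, .pc 9 1 3, .pc 10 0 11, .pc 10 0 3,
  .pc 10 0 4, .pc 10 0 7, .pc 10 1 3, .pc 11 0 3, .pc 11 0 4, .pc 11 0 7, .pc 11 1 3, .pc 4 3 8,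
  .pc 4 3 9, .pc 4 3 10, .pc 4 3 11, .sp 1 3 4 8 1 2 4, .sp 1 3 4 8 1 2 5, .sp 1 3 4 8 1 2 6,
  .sp 1 3 4 9 1 2 3, .sp 1 3 4 9 1 2 5, .sp 1 3 4 9 1 2 6, .sp 1 3 4 10 1 2 3, .sp 1 3 4 10 1 2 4,
  .sp 1 3 4 10 1 2 6, .sp 1 3 4 11 1 2 3, .sp 1 3 4 11 1 2 4, .sp 1 3 4 11 1 2 5, .pc 4 8 2,
  .pc 4 9 2, .pc 4 10 2, .pc 4 11 2, .dem 8 129 4 136, .dem 9 129 4 144, .dem 10 129 4 160,
  .dem 11 129 4 192, .pc 12 8 2, .pc 12 8 9, .pc 12 8 10, .pc 12 8 11, .pc 12 8 3, .pc 12 8 7,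
  .pc 12 4 2, .pc 12 4 9, .pc 12 4 10, .pc 12 4 11, .pc 13 9 2, .pc 13 9 8, .pc 13 9 10,
  .pc 13 9 11, .pc 13 9 3, .pc 13 9 7, .pc 13 4 2, .pc 13 4 8, .pc 13 4 10, .pc 13 4 11,
  .pc 14 10 2, .pc 14 10 8, .pc 14 10 9, .pc 14 10 11, .pc 14 10 3, .pc 14 10 7, .pc 14 4 2,
  .pc 14 4 8, .pc 14 4 9, .pc 14 4 11, .pc 15 11 2, .pc 15 11 8, .pc 15 11 9, .pc 15 11 10,
  .pc 15 11 3, .pc 15 11 7, .pc 15 4 2, .pc 15 4 8, .pc 15 4 9, .pc 15 4 10, .pc 12 9 1,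
  .pc 12 10 1, .pc 12 11 1, .pc 13 8 1, .pc 13 10 1, .pc 13 11 1, .pc 14 8 1, .pc 14 9 1,
  .pc 14 11 1, .pc 15 8 1, .pc 15 9 1, .pc 15 10 1, .pc 5 3 8, .pc 5 3 9, .pc 5 3 10, .pc 5 3 11,
  .pc 5 3 4, .pc 5 3 12, .pc 5 3 13, .pc 5 3 14, .pc 5 3 15, .pc 5 1 8, .pc 5 1 9, .pc 5 1 10,
  .pc 5 1 11, .pc 6 2 0, .pc 6 2 1, .pc 6 2 8, .pc 6 2 9, .pc 6 2 10, .pc 6 2 11, .pc 6 2 12,
  .pc 6 2 13, .pc 6 2 14, .pc 6 2 15, .pc 6 5 8, .pc 6 5 9, .pc 6 5 10, .pc 6 5 11, .pc 5 8 4,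
  .pc 5 9 4, .pc 5 10 4, .pc 5 11 4, .pc 5 4 12, .pc 5 4 13, .pc 5 4 14, .pc 5 4 15, .pc 12 5 6,
  .pc 13 5 6, .pc 14 5 6, .pc 15 5 6, .sp 1 5 6 8 2 1 4, .sp 1 5 6 8 2 1 5, .sp 1 5 6 8 2 1 6,
  .sp 1 5 6 9 2 1 3, .sp 1 5 6 9 2 1 5, .sp 1 5 6 9 2 1 6, .sp 1 5 6 10 2 1 3, .sp 1 5 6 10 2 1 4,
  .sp 1 5 6 10 2 1 6, .sp 1 5 6 11 2 1 3, .sp 1 5 6 11 2 1 4, .sp 1 5 6 11 2 1 5,
  .sp 1 5 6 12 2 1 4, .sp 1 5 6 12 2 1 5, .sp 1 5 6 12 2 1 6, .sp 1 5 6 13 2 1 3,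
  .sp 1 5 6 13 2 1 5, .sp 1 5 6 13 2 1 6, .sp 1 5 6 14 2 1 3, .sp 1 5 6 14 2 1 4,
  .sp 1 5 6 14 2 1 6, .sp 1 5 6 15 2 1 3, .sp 1 5 6 15 2 1 4, .sp 1 5 6 15 2 1 5, .pc 6 8 0,
  .pc 6 9 0, .pc 6 10 0, .pc 6 11 0, .dem 7 1 4 5, .pc 16 7 0, .pc 16 7 12, .pc 16 7 13,
  .pc 16 7 14, .pc 16 7 15, .pc 16 4 0, .pc 16 4 12, .pc 16 4 13, .pc 16 4 14, .pc 16 4 15,
  .pc 16 0 6, .pc 16 12 6, .pc 16 13 6, .pc 16 14 6, .pc 16 15 6, .pc 6 16 7]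

set_option maxRecDepth 100000 in
theorem E2j_chk : check 4 8 [(1, 0, 2), (2, 0, 129), (2, 1, 132), (3, 0, 129), (3, 1, 6), (4, 0, 130), (4, 3, 132), (7, 0, 129), (7, 4, 251), (3, 5, 1), (5, 1, 6), (6, 2, 132), (6, 5, 130)]
    6 7 251 E2j_st = true := by decide +kernel

set_option maxRecDepth 100000 in
theorem E2j_all : allD 2 [0] (fun l => match l with
    | [_, i, j] => relOk (pcode [0, 1, 2, 3, 4, 5, 6] [0, i, j]) [(1, 0, 2), (2, 0, 129), (2, 1, 132), (3, 0, 129), (3, 1, 6), (4, 0, 130), (4, 3, 132), (7, 0, 129), (7, 4, 251), (3, 5, 1), (5, 1, 6), (6, 2, 132), (6, 5, 130)]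
        [(1, 0, (s1 i)), (2, 0, (m1 0)), (2, 1, (m1 j)), (3, 0, (m1 0)), (3, 1, (s2 i j)), (4, 0, (m1 i)), (4, 3, (m1 j)), (7, 0, (m1 0)), (7, 4, (nx j)), (3, 5, (s1 0)), (5, 1, (s2 i j)), (6, 2, (m1 j)), (6, 5, (m1 i))] 251 (nx j)
    | _ => true) = true := by decide +kernel

theorem E2j {D : Type*} {H : ℕ → D → D → Prop} (hH : Good H) (hR : ∀ K : ℕ → D → D → Prop, Good K → Rules 4 K)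
    {i j : ℕ} (hi7 : i < 7) (hj7 : j < 7)
    (hi0 : i ≠ 0) (hj0 : j ≠ 0) (hji : j ≠ i)
    {zi q zj u g cu hu X : D} (q0 : H (s1 i) q zi) (q1 : H (m1 0) zj zi) (q2 : H (m1 j) zj q) (q3 : H (m1 0) u zi) (q4 : H (s2 i j) u q) (q5 : H (m1 i) g zi) (q6 : H (m1 j) g u) (q7 : H (m1 0) X zi) (q8 : H (nx j) X g) (q9 : H (s1 0) u cu) (q10 : H (s2 i j) cu q) (q11 : H (m1 j) hu zj) (q12 : H (m1 i) hu cu) :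
    H (nx j) hu X := by
  have h0 := E2j_all
  have h1 := allD_step h0 hi7 (nm1 hi0)
  have h2 := allD_step h1 hj7 (nm2 hj0 hji)
  refine rel_sound hH hR E2j_chk h2 (fun t => [zi, q, zj, u, g, cu, hu, X].getD t zi) ?_
  simp only [List.forall_mem_cons]
  exact ⟨q0, q1, q2, q3, q4, q5, q6, q7, q8, q9, q10, q11, q12, by simp⟩

/-- certificate for `E2n` -/
def E2n_st : List Step := [
  .dem 0 129 1 136, .dem 0 129 1 144, .dem 0 129 1 160, .dem 0 129 1 192, .pc 1 0 8, .pc 1 0 9,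
  .pc 1 0 10, .pc 1 0 11, .pc 1 0 4, .pc 0 1 2, .pc 0 1 8, .pc 0 1 9, .pc 0 1 10, .pc 0 1 11,
  .pc 2 0 9, .pc 2 0 10, .pc 2 0 11, .pc 2 0 4, .pc 2 1 8, .pc 2 1 9, .pc 2 1 10, .pc 2 1 11,
  .pc 8 0 9, .pc 8 0 10, .pc 8 0 11, .pc 8 0 3, .pc 8 1 3, .pc 9 0 10, .pc 9 0 11, .pc 9 0 3,
  .pc 9 0 4, .pc 9 0 7, .pc 9 1 3, .pc 10 0 11, .pc 10 0 3, .pc 10 0 4, .pc 10 0 7, .pc 10 1 3,
  .pc 11 0 3, .pc 11 0 4, .pc 11 0 7, .pc 11 1 3, .pc 3 0 7, .pc 4 3 9, .pc 4 3 10, .pc 4 3 11,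
  .sp 1 3 4 8 1 2 4, .sp 1 3 4 8 1 2 5, .sp 1 3 4 8 1 2 6, .sp 1 3 4 9 1 2 3, .sp 1 3 4 9 1 2 5,
  .sp 1 3 4 9 1 2 6, .sp 1 3 4 10 1 2 3, .sp 1 3 4 10 1 2 4, .sp 1 3 4 10 1 2 6,
  .sp 1 3 4 11 1 2 3, .sp 1 3 4 11 1 2 4, .sp 1 3 4 11 1 2 5, .pc 4 9 2, .pc 4 10 2, .pc 4 11 2,
  .dem 9 129 4 144, .dem 10 129 4 160, .dem 11 129 4 192, .pc 12 9 2, .pc 12 9 8, .pc 12 9 10,
  .pc 12 9 11, .pc 12 9 3, .pc 12 9 7, .pc 12 4 2, .pc 12 4 8, .pc 12 4 10, .pc 12 4 11,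
  .pc 13 10 2, .pc 13 10 8, .pc 13 10 9, .pc 13 10 11, .pc 13 10 3, .pc 13 10 7, .pc 13 4 2,
  .pc 13 4 8, .pc 13 4 9, .pc 13 4 11, .pc 14 11 2, .pc 14 11 8, .pc 14 11 9, .pc 14 11 10,
  .pc 14 11 3, .pc 14 11 7, .pc 14 4 2, .pc 14 4 8, .pc 14 4 9, .pc 14 4 10, .pc 12 8 1,
  .pc 12 10 1, .pc 12 11 1, .pc 13 8 1, .pc 13 9 1, .pc 13 11 1, .pc 14 8 1, .pc 14 9 1,
  .pc 14 10 1, .pc 3 5 6, .pc 5 3 8, .pc 5 3 9, .pc 5 3 10, .pc 5 3 11, .pc 5 3 4, .pc 5 3 12,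
  .pc 5 3 13, .pc 5 3 14, .pc 5 1 8, .pc 5 1 9, .pc 5 1 10, .pc 5 1 11, .pc 6 2 0, .pc 6 2 1,
  .pc 6 2 8, .pc 6 2 9, .pc 6 2 10, .pc 6 2 11, .pc 6 2 12, .pc 6 2 13, .pc 6 2 14, .pc 6 5 8,
  .pc 6 5 9, .pc 6 5 10, .pc 6 5 11, .pc 5 9 4, .pc 5 10 4, .pc 5 11 4, .pc 5 4 12, .pc 5 4 13,
  .pc 5 4 14, .pc 12 5 6, .pc 13 5 6, .pc 14 5 6, .sp 1 5 6 8 2 1 4, .sp 1 5 6 8 2 1 5,
  .sp 1 5 6 8 2 1 6, .sp 1 5 6 9 2 1 3, .sp 1 5 6 9 2 1 5, .sp 1 5 6 9 2 1 6, .sp 1 5 6 10 2 1 3,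
  .sp 1 5 6 10 2 1 4, .sp 1 5 6 10 2 1 6, .sp 1 5 6 11 2 1 3, .sp 1 5 6 11 2 1 4,
  .sp 1 5 6 11 2 1 5, .sp 1 5 6 3 2 1 3, .sp 1 5 6 3 2 1 4, .sp 1 5 6 3 2 1 5, .sp 1 5 6 3 2 1 6,
  .sp 1 5 6 12 2 1 3, .sp 1 5 6 12 2 1 5, .sp 1 5 6 12 2 1 6, .sp 1 5 6 13 2 1 3,
  .sp 1 5 6 13 2 1 4, .sp 1 5 6 13 2 1 6, .sp 1 5 6 14 2 1 3, .sp 1 5 6 14 2 1 4,
  .sp 1 5 6 14 2 1 5, .pc 6 8 0, .pc 6 9 0, .pc 6 10 0, .pc 6 11 0, .dem 7 1 4 9, .pc 15 7 0,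
  .pc 15 7 3, .pc 15 7 12, .pc 15 7 13, .pc 15 7 14, .pc 15 4 0, .pc 15 4 3, .pc 15 4 12,
  .pc 15 4 13, .pc 15 4 14, .pc 15 0 6, .pc 15 3 6, .pc 15 12 6, .pc 15 13 6, .pc 15 14 6,
  .pc 6 15 7]

set_option maxRecDepth 100000 in
theorem E2n_chk : check 4 8 [(1, 0, 2), (2, 0, 129), (2, 1, 132), (3, 0, 129), (3, 1, 6), (4, 0, 130), (4, 3, 132), (7, 0, 129), (7, 4, 247), (3, 5, 1), (5, 1, 6), (6, 2, 132), (6, 5, 130)]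
    6 7 247 E2n_st = true := by decide +kernel

set_option maxRecDepth 100000 in
theorem E2n_all : allD 3 [0] (fun l => match l with
    | [_, i, j, n] => relOk (pcode [0, 1, 2, 3, 4, 5, 6] [0, i, j, n]) [(1, 0, 2), (2, 0, 129), (2, 1, 132), (3, 0, 129), (3, 1, 6), (4, 0, 130), (4, 3, 132), (7, 0, 129), (7, 4, 247), (3, 5, 1), (5, 1, 6), (6, 2, 132), (6, 5, 130)]
        [(1, 0, (s1 i)), (2, 0, (m1 0)), (2, 1, (m1 j)), (3, 0, (m1 0)), (3, 1, (s2 i j)), (4, 0, (m1 i)), (4, 3, (m1 j)), (7, 0, (m1 0)), (7, 4, (nx n)), (3, 5, (s1 0)), (5, 1, (s2 i j)), (6, 2, (m1 j)), (6, 5, (m1 i))] 247 (nx n)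
    | _ => true) = true := by decide +kernel

theorem E2n {D : Type*} {H : ℕ → D → D → Prop} (hH : Good H) (hR : ∀ K : ℕ → D → D → Prop, Good K → Rules 4 K)
    {i j n : ℕ} (hi7 : i < 7) (hj7 : j < 7) (hn7 : n < 7)
    (hi0 : i ≠ 0) (hj0 : j ≠ 0) (hji : j ≠ i) (hn0 : n ≠ 0) (hni : n ≠ i) (hnj : n ≠ j)
    {zi q zj u g cu hu X : D} (q0 : H (s1 i) q zi) (q1 : H (m1 0) zj zi) (q2 : H (m1 j) zj q) (q3 : H (m1 0) u zi) (q4 : H (s2 i j) u q) (q5 : H (m1 i) g zi) (q6 : H (m1 j) g u) (q7 : H (m1 0) X zi) (q8 : H (nx n) X g) (q9 : H (s1 0) u cu) (q10 : H (s2 i j) cu q) (q11 : H (m1 j) hu zj) (q12 : H (m1 i) hu cu) :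
    H (nx n) hu X := by
  have h0 := E2n_all
  have h1 := allD_step h0 hi7 (nm1 hi0)
  have h2 := allD_step h1 hj7 (nm2 hj0 hji)
  have h3 := allD_step h2 hn7 (nm3 hn0 hni hnj)
  refine rel_sound hH hR E2n_chk h3 (fun t => [zi, q, zj, u, g, cu, hu, X].getD t zi) ?_
  simp only [List.forall_mem_cons]
  exact ⟨q0, q1, q2, q3, q4, q5, q6, q7, q8, q9, q10, q11, q12, by simp⟩

/-- certificate for `E2z` -/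
def E2z_st : List Step := [
  .dem 0 129 1 136, .dem 0 129 1 144, .dem 0 129 1 160, .dem 0 129 1 192, .pc 1 0 7, .pc 1 0 8,
  .pc 1 0 9, .pc 1 0 10, .pc 1 0 4, .pc 0 1 2, .pc 0 1 7, .pc 0 1 8, .pc 0 1 9, .pc 0 1 10,
  .pc 2 0 7, .pc 2 0 8, .pc 2 0 9, .pc 2 0 10, .pc 2 0 3, .pc 2 0 4, .pc 2 1 7, .pc 2 1 8,
  .pc 2 1 9, .pc 2 1 10, .pc 7 0 3, .pc 7 0 4, .pc 7 1 3, .pc 8 0 3, .pc 8 0 4, .pc 8 1 3,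
  .pc 9 0 3, .pc 9 0 4, .pc 9 1 3, .pc 10 0 3, .pc 10 0 4, .pc 10 1 3, .pc 4 3 7, .pc 4 3 8,
  .pc 4 3 9, .pc 4 3 10, .sp 1 3 4 7 1 2 4, .sp 1 3 4 7 1 2 5, .sp 1 3 4 7 1 2 6,
  .sp 1 3 4 8 1 2 3, .sp 1 3 4 8 1 2 5, .sp 1 3 4 8 1 2 6, .sp 1 3 4 9 1 2 3, .sp 1 3 4 9 1 2 4,
  .sp 1 3 4 9 1 2 6, .sp 1 3 4 10 1 2 3, .sp 1 3 4 10 1 2 4, .sp 1 3 4 10 1 2 5, .pc 4 7 2,
  .pc 4 8 2, .pc 4 9 2, .pc 4 10 2, .pc 5 3 0, .pc 5 3 2, .pc 5 3 4, .pc 6 2 4, .pc 6 2 5,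
  .pc 5 6 4, .pc 0 5 4]

set_option maxRecDepth 100000 in
theorem E2z_chk : check 4 7 [(1, 0, 2), (2, 0, 129), (2, 1, 132), (3, 0, 129), (3, 1, 6), (4, 0, 130), (4, 3, 132), (3, 5, 1), (6, 5, 130), (6, 2, 128)]
    0 4 128 E2z_st = true := by decide +kernel

set_option maxRecDepth 100000 in
theorem E2z_all : allD 2 [0] (fun l => match l with
    | [_, i, j] => relOk (pcode [0, 1, 2, 3, 4, 5, 6] [0, i, j]) [(1, 0, 2), (2, 0, 129), (2, 1, 132), (3, 0, 129), (3, 1, 6), (4, 0, 130), (4, 3, 132), (3, 5, 1), (6, 5, 130), (6, 2, 128)]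
        [(1, 0, (s1 i)), (2, 0, (m1 0)), (2, 1, (m1 j)), (3, 0, (m1 0)), (3, 1, (s2 i j)), (4, 0, (m1 i)), (4, 3, (m1 j)), (3, 5, (s1 0)), (6, 5, (m1 i)), (6, 2, 128)] 128 128
    | _ => true) = true := by decide +kernel

theorem E2z {D : Type*} {H : ℕ → D → D → Prop} (hH : Good H) (hR : ∀ K : ℕ → D → D → Prop, Good K → Rules 4 K)
    {i j : ℕ} (hi7 : i < 7) (hj7 : j < 7)
    (hi0 : i ≠ 0) (hj0 : j ≠ 0) (hji : j ≠ i)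
    {zi q zj u g cu hu : D} (q0 : H (s1 i) q zi) (q1 : H (m1 0) zj zi) (q2 : H (m1 j) zj q) (q3 : H (m1 0) u zi) (q4 : H (s2 i j) u q) (q5 : H (m1 i) g zi) (q6 : H (m1 j) g u) (q7 : H (s1 0) u cu) (q8 : H (m1 i) hu cu) (q9 : H 128 hu zj) :
    H 128 zi g := by
  have h0 := E2z_all
  have h1 := allD_step h0 hi7 (nm1 hi0)
  have h2 := allD_step h1 hj7 (nm2 hj0 hji)
  refine rel_sound hH hR E2z_chk h2 (fun t => [zi, q, zj, u, g, cu, hu].getD t zi) ?_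
  simp only [List.forall_mem_cons]
  exact ⟨q0, q1, q2, q3, q4, q5, q6, q7, q8, q9, by simp⟩

end Pool.Agent.W213.Ly
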