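import Pool.Agent.W213.Ly.Rules4
import Pool.Agent.W213.Ly.CertFr1
import Pool.Agent.W213.Ly.CertFr2
import Pool.Agent.W213.Ly.CertFr3
import Pool.Agent.W213.Ly.CertFr4
import Pool.Agent.W213.Ly.CertF

/-! Frames: splitting by elimination. -/

set_option autoImplicit false

namespace Pool.Agent.W213.Ly

universe u

variable {D : Type u} {H : ℕ → D → D → Prop}

/-! ### Small mask facts -/

theorem dec1 {f : ℕ → Bool} (h : (List.range 7).all f = true) {a : ℕ} (ha : a < 7) : f a = true := by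
  rw [List.all_eq_true] at h
  exact h a (List.mem_range.2 ha)

theorem dec2 {f : ℕ → ℕ → Bool} (h : ((List.range 7).all fun a => (List.range 7).all fun b => f a b) = true)
    {a b : ℕ} (ha : a < 7) (hb : b < 7) : f a b = true := dec1 (dec1 h ha) hb

theorem line_trans (hH : MWR H) {c : ℕ} (hc : c < 7) {x y z : D} (h1 : H (m1 c) x y)
    (h2 : H (m1 c) y z) : H (m1 c) x z := by
  have h0 : ((List.range 7).all fun c => Nat.beq (comp (m1 c) (m1 c)) (m1 c)) = true := by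
    decide +kernel
  have h3 := Nat.eq_of_beq_eq_true (dec1 h0 hc)
  have h4 := hH.cmp h1 h2
  rwa [h3] at h4

theorem line_refl (hH : MWR H) {c : ℕ} (hc : c < 7) (x : D) : H (m1 c) x x := by
  have h0 : ((List.range 7).all fun c => Nat.beq (128 &&& (m1 c)) 128) = true := by
    decide +kernel
  exact hH.mono (Nat.eq_of_beq_eq_true (dec1 h0 hc)) (hH.idl x)

theorem meet_eq (hH : MWR H) {c d : ℕ} (hc : c < 7) (hd : d < 7) (hcd : c ≠ d) {x y : D}
    (h1 : H (m1 c) x y) (h2 : H (m1 d) x y) : x = y := by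
  have h0 : ((List.range 7).all fun c => (List.range 7).all fun d => Nat.beq c d ||
      Nat.beq (m1 c &&& m1 d) 128) = true := by
    decide +kernel
  have h3 := dec2 h0 hc hd
  rw [Bool.or_eq_true] at h3
  rcases h3 with h3 | h3
  · exact absurd (Nat.eq_of_beq_eq_true h3) hcd
  · have h4 := hH.inter h1 h2
    rw [Nat.eq_of_beq_eq_true h3] at h4
    exact hH.ideq h4

theorem meet_ex (hH : MWR H) {c d : ℕ} (hc : c < 7) (hd : d < 7) (hcd : c ≠ d) (x y : D) :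
    ∃ p, H (m1 c) x p ∧ H (m1 d) p y := by
  have h0 : ((List.range 7).all fun c => (List.range 7).all fun d => Nat.beq c d ||
      Nat.beq (comp (m1 c) (m1 d)) 255) = true := by
    decide +kernel
  have h3 := dec2 h0 hc hd
  rw [Bool.or_eq_true] at h3
  rcases h3 with h3 | h3
  · exact absurd (Nat.eq_of_beq_eq_true h3) hcd
  · apply hH.dem
    rw [Nat.eq_of_beq_eq_true h3]
    exact hH.full x y

theorem s1_m1 (hH : MWR H) {c : ℕ} (hc : c < 7) {x y : D} (h : H (s1 c) x y) : H (m1 c) x y := by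
  have h0 : ((List.range 7).all fun c => Nat.beq (s1 c &&& (m1 c)) (s1 c)) = true := by
    decide +kernel
  exact hH.mono (Nat.eq_of_beq_eq_true (dec1 h0 hc)) h

theorem m1_nx (hH : MWR H) {c d : ℕ} (hc : c < 7) (hd : d < 7) (hcd : c ≠ d) {x y : D}
    (h : H (m1 c) x y) : H (nx d) x y := by
  have h0 : ((List.range 7).all fun c => (List.range 7).all fun d => Nat.beq c d ||
      Nat.beq (m1 c &&& nx d) (m1 c)) = true := by
    decide +kernel
  have h3 := dec2 h0 hc hd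
  rw [Bool.or_eq_true] at h3
  rcases h3 with h3 | h3
  · exact absurd (Nat.eq_of_beq_eq_true h3) hcd
  · exact hH.mono (Nat.eq_of_beq_eq_true h3) h

theorem excl_list (hH : MWR H) {x y : D} : ∀ (l : List ℕ) (S : ℕ), H S x y →
    (∀ n ∈ l, H (nx n) x y) → H (l.foldl (fun S n => S &&& nx n) S) x y := by
  intro l
  induction l with
  | nil => intro S h _; exact h
  | cons a l ih =>
    intro S h hl
    exact ih _ (hH.inter h (hl a (by simp))) (fun n hn => hl n (by simp [hn]))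

theorem mem_rest {l : List ℕ} {n : ℕ} (h : n ∈ rest l) : n < 7 ∧ n ∉ l := by
  unfold rest at h
  rw [List.mem_filter, List.mem_range] at h
  refine ⟨h.1, fun hn => ?_⟩
  have h2 := h.2
  rw [Bool.not_eq_true', List.any_eq_false] at h2
  exact h2 n hn (Nat.beq_refl n)

theorem comb_s2 (hH : MWR H) {i j : ℕ} (hi : i < 7) (hj : j < 7) (hi0 : i ≠ 0) (hj0 : j ≠ 0)
    (hji : j ≠ i) {x y : D} (h0 : H (mx 0) x y)
    (h : ∀ n, n ≠ 0 → n < 7 → n ≠ i → n ≠ j → H (nx n) x y) : H (s2 i j) x y := by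
  have e0 : ((List.range 7).all fun i => (List.range 7).all fun j => Nat.beq i 0 || Nat.beq j 0 ||
      Nat.beq j i || Nat.beq ((rest [0, i, j]).foldl (fun S n => S &&& nx n) (mx 0)) (s2 i j)) = true := by
    decide +kernel
  have e1 := dec2 e0 hi hj
  simp only [Bool.or_eq_true] at e1
  rcases e1 with ((e1 | e1) | e1) | e1
  · exact absurd (Nat.eq_of_beq_eq_true e1) hi0
  · exact absurd (Nat.eq_of_beq_eq_true e1) hj0
  · exact absurd (Nat.eq_of_beq_eq_true e1) hji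
  · rw [← Nat.eq_of_beq_eq_true e1]
    apply excl_list hH _ _ h0
    intro n hn
    obtain ⟨h1, h2⟩ := mem_rest hn
    simp only [List.mem_cons, List.not_mem_nil, or_false, not_or] at h2
    exact h n h2.1 h1 h2.2.1 h2.2.2

theorem comb_m2 (hH : MWR H) {j : ℕ} (hj : j < 7) (hj0 : j ≠ 0) {x y : D}
    (h : ∀ n, n ≠ 0 → n < 7 → n ≠ j → H (nx n) x y) : H (m2 0 j) x y := by
  have e0 : ((List.range 7).all fun j => Nat.beq j 0 ||
      Nat.beq ((rest [0, j]).foldl (fun S n => S &&& nx n) 255) (m2 0 j)) = true := by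
    decide +kernel
  have e1 := dec1 e0 hj
  simp only [Bool.or_eq_true] at e1
  rcases e1 with e1 | e1
  · exact absurd (Nat.eq_of_beq_eq_true e1) hj0
  · rw [← Nat.eq_of_beq_eq_true e1]
    apply excl_list hH _ _ (hH.full x y)
    intro n hn
    obtain ⟨h1, h2⟩ := mem_rest hn
    simp only [List.mem_cons, List.not_mem_nil, or_false, not_or] at h2
    exact h n h2.1 h1 h2.2

/-- demand a point -/
theorem dem_of (hH : MWR H) {S T U : ℕ} {x z : D} (h : H U x z) (hs : sub U (comp S T) = true) :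
    ∃ y, H S x y ∧ H T y z := hH.dem (hH.mono (sub_iff.1 hs) h)

theorem dem_ij (hH : MWR H) {i j : ℕ} (hi : i < 7) (hj : j < 7) (hi0 : i ≠ 0) (hj0 : j ≠ 0)
    (hji : j ≠ i) {x y : D} (h0 : H (mx 0) x y) : ∃ b, H (s1 0) x b ∧ H (s2 i j) b y := by
  have e0 : ((List.range 7).all fun i => (List.range 7).all fun j => Nat.beq i 0 || Nat.beq j 0 ||
      Nat.beq j i || sub (mx 0) (comp (s1 0) (s2 i j))) = true := by
    decide +kernel
  have e1 := dec2 e0 hi hj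
  simp only [Bool.or_eq_true] at e1
  rcases e1 with ((e1 | e1) | e1) | e1
  · exact absurd (Nat.eq_of_beq_eq_true e1) hi0
  · exact absurd (Nat.eq_of_beq_eq_true e1) hj0
  · exact absurd (Nat.eq_of_beq_eq_true e1) hji
  · exact dem_of hH h0 e1

theorem dem_x (hH : MWR H) {i j : ℕ} (hi : i < 7) (hj : j < 7) (hi0 : i ≠ 0) (hj0 : j ≠ 0)
    (hji : j ≠ i) (x y : D) : ∃ b, H (s1 0) x b ∧ H (s3 0 i j) b y := by
  have e0 : ((List.range 7).all fun i => (List.range 7).all fun j => Nat.beq i 0 || Nat.beq j 0 ||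
      Nat.beq j i || sub 255 (comp (s1 0) (s3 0 i j))) = true := by
    decide +kernel
  have e1 := dec2 e0 hi hj
  simp only [Bool.or_eq_true] at e1
  rcases e1 with ((e1 | e1) | e1) | e1
  · exact absurd (Nat.eq_of_beq_eq_true e1) hi0
  · exact absurd (Nat.eq_of_beq_eq_true e1) hj0
  · exact absurd (Nat.eq_of_beq_eq_true e1) hji
  · exact dem_of hH (hH.full x y) e1

theorem dem_w (hH : MWR H) {i j : ℕ} (hi : i < 7) (hj : j < 7) (hi0 : i ≠ 0) (hj0 : j ≠ 0)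
    (hji : j ≠ i) {x y : D} (h0 : H (s3 0 i j) x y) : ∃ b, H (s1 0) x b ∧ H (m2 i j) b y := by
  have e0 : ((List.range 7).all fun i => (List.range 7).all fun j => Nat.beq i 0 || Nat.beq j 0 ||
      Nat.beq j i || sub (s3 0 i j) (comp (s1 0) (m2 i j))) = true := by
    decide +kernel
  have e1 := dec2 e0 hi hj
  simp only [Bool.or_eq_true] at e1
  rcases e1 with ((e1 | e1) | e1) | e1
  · exact absurd (Nat.eq_of_beq_eq_true e1) hi0
  · exact absurd (Nat.eq_of_beq_eq_true e1) hj0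
  · exact absurd (Nat.eq_of_beq_eq_true e1) hji
  · exact dem_of hH h0 e1

theorem s2_mx0 (hH : MWR H) {i j : ℕ} (hi : i < 7) (hj : j < 7) (hi0 : i ≠ 0) (hj0 : j ≠ 0)
    {x y : D} (h0 : H (s2 i j) x y) : H (mx 0) x y := by
  have e0 : ((List.range 7).all fun i => (List.range 7).all fun j => Nat.beq i 0 || Nat.beq j 0 ||
      sub (s2 i j) (mx 0)) = true := by
    decide +kernel
  have e1 := dec2 e0 hi hj
  simp only [Bool.or_eq_true] at e1
  rcases e1 with (e1 | e1) | e1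
  · exact absurd (Nat.eq_of_beq_eq_true e1) hi0
  · exact absurd (Nat.eq_of_beq_eq_true e1) hj0
  · exact hH.mono (sub_iff.1 e1) h0

theorem s1_s2 (hH : MWR H) {j : ℕ} (hj : j < 7) {x y : D} (h0 : H (s1 j) x y) : H (s2 0 j) x y := by
  have e0 : ((List.range 7).all fun j => sub (s1 j) (s2 0 j)) = true := by
    decide +kernel
  exact hH.mono (sub_iff.1 (dec1 e0 hj)) h0

theorem s2_comm (i j : ℕ) : s2 i j = s2 j i := Nat.lor_comm _ _

/-! ### Frames -/

/-- a frame: a point `q` and the points `z l` of the line `κ` of class `0` -/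
structure Frame (H : ℕ → D → D → Prop) (q : D) (z : ℕ → D) : Prop where
  hq : ∀ l, l ≠ 0 → l < 7 → H (s1 l) q (z l)
  hz : ∀ k l, k ≠ 0 → k < 7 → l ≠ 0 → l < 7 → H (m1 0) (z k) (z l)

/-- `X` lies on `κ` -/
def OnK (H : ℕ → D → D → Prop) (z : ℕ → D) (X : D) : Prop :=
  ∀ l, l ≠ 0 → l < 7 → H (m1 0) X (z l)

/-- elements with base `i` -/
def El (H : ℕ → D → D → Prop) (q : D) (z : ℕ → D) (i : ℕ) (G : D) : Prop :=
  H (m1 i) G q ∧ ∀ j, j ≠ 0 → j < 7 → j ≠ i → H (s2 0 j) G (z j)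

/-- the order of elements -/
def Le (H : ℕ → D → D → Prop) (z : ℕ → D) (G' G : D) : Prop :=
  ∀ X, OnK H z X → ∀ n, n ≠ 0 → n < 7 → H (nx n) X G → H (nx n) X G'

theorem Le.refl (z : ℕ → D) (G : D) : Le H z G G := fun _ _ _ _ _ h => h

theorem Le.trans {z : ℕ → D} {G G' G'' : D} (h1 : Le H z G'' G') (h2 : Le H z G' G) : Le H z G'' G :=
  fun X hX n hn hn7 h => h1 X hX n hn hn7 (h2 X hX n hn hn7 h)

theorem onK_of (hH : MWR H) {q : D} {z : ℕ → D} (hF : Frame H q z) {i : ℕ} (hi0 : i ≠ 0) (hi : i < 7)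
    {X : D} (h : H (m1 0) X (z i)) : OnK H z X := fun l hl hl7 =>
  line_trans hH (by norm_num) h (hF.hz i l hi0 hi hl hl7)

section

variable {q : D} {z : ℕ → D} {i j : ℕ}

theorem sup_ex (hG : Good H) (hF : Frame H q z) (hi : i < 7) (hj : j < 7) (hi0 : i ≠ 0) (hj0 : j ≠ 0)
    (hji : j ≠ i) {G : D} (hE : El H q z i G) :
    ∃ u, OnK H z u ∧ H (m1 j) u G ∧ H (s2 i j) u q := by
  have hH := hG.mwr
  obtain ⟨u, h1, h2⟩ := meet_ex hH (c := 0) (d := j) (by norm_num) hj hj0.symm (z i) G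
  have hK : OnK H z u := onK_of hH hF hi0 hi (hH.symm h1)
  refine ⟨u, hK, h2, comb_s2 hH hi hj hi0 hj0 hji ?_ ?_⟩
  · exact hH.symm (L1z hG rules4 hi hi0 (hF.hq i hi0 hi) (hK i hi0 hi))
  · intro n hn0 hn hni hnj
    exact L1k hG rules4 hi hj hn hi0 hj0 hji hn0 hni hnj (hF.hq n hn0 hn) (hF.hz i n hi0 hi hn0 hn)
      (hE.2 n hn0 hn hni) (hK i hi0 hi) h2

theorem el_of_sup (hG : Good H) (hF : Frame H q z) (hi : i < 7) (hj : j < 7) (hi0 : i ≠ 0) (hj0 : j ≠ 0)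
    (hji : j ≠ i) {u g : D} (hu : OnK H z u) (h1 : H (s2 i j) u q) (h2 : H (m1 i) g (z i))
    (h3 : H (m1 j) g u) : El H q z i g := by
  have hH := hG.mwr
  refine ⟨hH.symm (L2q hG rules4 hi hi0 (hF.hq i hi0 hi) h2), ?_⟩
  intro n hn0 hn hni
  by_cases hnj : n = j
  · subst hnj
    exact L2a hG rules4 hi hj hi0 hj0 hji (hF.hq i hi0 hi) (hF.hz n i hn0 hn hi0 hi)
      (s1_m1 hH hn (hH.symm (hF.hq n hn0 hn))) (hu i hi0 hi) h1 h2 h3
  · exact L2b hG rules4 hi hj hn hi0 hj0 hji hn0 hni hnj (hF.hq i hi0 hi) (hF.hz n i hn0 hn hi0 hi)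
      (s1_m1 hH hn (hH.symm (hF.hq n hn0 hn))) (hu i hi0 hi) h1 h2 h3

theorem el_zi (hG : Good H) (hF : Frame H q z) (hi : i < 7) (hi0 : i ≠ 0) {G : D}
    (hE : El H q z i G) : H (m1 i) G (z i) :=
  line_trans hG.mwr hi hE.1 (s1_m1 hG.mwr hi (hF.hq i hi0 hi))

theorem le_E1 (hG : Good H) (hF : Frame H q z) (hi : i < 7) (hj : j < 7) (hi0 : i ≠ 0) (hj0 : j ≠ 0)
    (hji : j ≠ i) {u g w gw : D} (hu : OnK H z u) (hu1 : H (s2 i j) u q) (hg : H (m1 i) g (z i))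
    (hg1 : H (m1 j) g u) (hw : OnK H z w) (hw1 : H (s2 i j) w q) (hgw : H (m1 i) gw (z i))
    (hgw1 : H (m1 j) gw w) (hm : H (m2 i j) w g) : Le H z gw g := by
  have hH := hG.mwr
  intro X hX n hn0 hn h
  by_cases hni : n = i
  · subst hni
    exact hH.symm (E1i hG rules4 hn hj hi0 hj0 hji (hF.hq n hi0 hn) (hF.hz j n hj0 hj hn0 hn)
      (s1_m1 hH hj (hH.symm (hF.hq j hj0 hj))) (hu n hn0 hn) hu1 hg hg1 (hw n hn0 hn) hw1 hgw hgw1 hm
      (hX n hn0 hn) h)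
  · by_cases hnj : n = j
    · subst hnj
      exact hH.symm (E1j hG rules4 hi hn hi0 hj0 hji (q := q) hg (hw i hi0 hi) hgw hgw1 hm (hX i hi0 hi) h)
    · exact hH.symm (E1n hG rules4 hi hj hn hi0 hj0 hji hn0 hni hnj hg (hw i hi0 hi) hgw hgw1 hm
        (hX i hi0 hi) h)

/-- base change -/
theorem base_change (hG : Good H) (hF : Frame H q z) (hi : i < 7) (hj : j < 7) (hi0 : i ≠ 0)
    (hj0 : j ≠ 0) (hji : j ≠ i) {G : D} (hE : El H q z i G) (hne : G ≠ z i) :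
    ∃ G', El H q z j G' ∧ G' ≠ z j ∧ Le H z G' G := by
  have hH := hG.mwr
  obtain ⟨u, huK, huG, huq⟩ := sup_ex hG hF hi hj hi0 hj0 hji hE
  obtain ⟨cu, hcu1, hcu2⟩ := dem_ij hH hi hj hi0 hj0 hji (s2_mx0 hH hi hj hi0 hj0 huq)
  have hcuK : OnK H z cu := onK_of hH hF hi0 hi (BK hG rules4 hi hi0 hcu1 (huK i hi0 hi))
  obtain ⟨hu, hhu1, hhu2⟩ := meet_ex hH hj hi hji (z j) cu
  have hGz := el_zi hG hF hi hi0 hE
  have q1 := hF.hz j i hj0 hj hi0 hi
  have q2 := s1_m1 hH hj (hH.symm (hF.hq j hj0 hj))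
  refine ⟨hu, ?_, ?_, ?_⟩
  · exact el_of_sup hG hF hj hi hj0 hi0 hji.symm hcuK (s2_comm i j ▸ hcu2) (hH.symm hhu1) hhu2
  · intro he
    apply hne
    have : H 128 hu (z j) := by rw [he]; exact hH.idl _
    exact (hH.ideq (E2z hG rules4 hi hj hi0 hj0 hji (hF.hq i hi0 hi) q1 q2 (huK i hi0 hi) huq hGz
      (hH.symm huG) hcu1 hhu2 this)).symm
  · intro X hX n hn0 hn h
    by_cases hni : n = i
    · subst hni
      exact hH.symm (E2i hG rules4 hn hj hi0 hj0 hji (hF.hq n hn0 hn) q1 q2 (huK n hn0 hn) huq hGz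
        (hH.symm huG) (hX n hn0 hn) h hcu1 hcu2 (hH.symm hhu1) hhu2)
    · by_cases hnj : n = j
      · subst hnj
        exact hH.symm (E2j hG rules4 hi hn hi0 hj0 hji (hF.hq i hi0 hi) q1 q2 (huK i hi0 hi) huq hGz
          (hH.symm huG) (hX i hi0 hi) h hcu1 hcu2 (hH.symm hhu1) hhu2)
      · exact hH.symm (E2n hG rules4 hi hj hn hi0 hj0 hji hn0 hni hnj (hF.hq i hi0 hi) q1 q2
          (huK i hi0 hi) huq hGz (hH.symm huG) (hX i hi0 hi) h hcu1 hcu2 (hH.symm hhu1) hhu2)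

/-- splitting: exclude one of the two classes `i`, `j` -/
theorem split_ij (hG : Good H) (hF : Frame H q z) (hi : i < 7) (hj : j < 7) (hi0 : i ≠ 0)
    (hj0 : j ≠ 0) (hji : j ≠ i) {G X : D} (hE : El H q z i G) (hne : G ≠ z i) (hX : OnK H z X) :
    ∃ G', El H q z i G' ∧ G' ≠ z i ∧ Le H z G' G ∧ (H (nx i) X G' ∨ H (nx j) X G') := by
  have hH := hG.mwr
  obtain ⟨u, huK, huG, huq⟩ := sup_ex hG hF hi hj hi0 hj0 hji hE
  have hGz := el_zi hG hF hi hi0 hE
  have hqi := hF.hq i hi0 hi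
  obtain ⟨v, hv1, hv2⟩ := dem_ij hH hi hj hi0 hj0 hji
    (hH.symm (L1z hG rules4 hi hi0 hqi (hX i hi0 hi)))
  have hvK : OnK H z v := onK_of hH hF hi0 hi (BK hG rules4 hi hi0 hv1 (hX i hi0 hi))
  obtain ⟨gv, hgv1, hgv2⟩ := meet_ex hH hi hj hji.symm (z i) v
  obtain ⟨p, hp1, hp2⟩ := meet_ex hH hj hi hji u v
  obtain ⟨x, hx1, hx2⟩ := dem_x hH hi hj hi0 hj0 hji (z i) p
  obtain ⟨w, hw1, hw2⟩ := dem_w hH hi hj hi0 hj0 hji hx2
  obtain ⟨gw, hgw1, hgw2⟩ := meet_ex hH hi hj hji.symm (z i) w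
  have hwz : H (m1 0) w (z i) := by
    have h1 := hH.cmp (hH.symm hw1) (hH.symm hx1)
    have e : comp (s1 0) (s1 0) = m1 0 := by decide +kernel
    rwa [e] at h1
  have hwK : OnK H z w := onK_of hH hF hi0 hi hwz
  have hwq := Mq hG rules4 hi hj hi0 hj0 hji hqi (huK i hi0 hi) huq (hvK i hi0 hi) hv2 (hH.symm hp1) hp2
    hx1 hw1 hw2
  have hwg := Mu hG rules4 hi hj hi0 hj0 hji hqi (huK i hi0 hi) huq hGz (hH.symm huG) (hvK i hi0 hi) hv2
    (hH.symm hp1) hp2 hx1 hx2 hw1 hw2 (hH.symm hgw1) hgw2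
  have hwgv := Mv hG rules4 hi hj hi0 hj0 hji hqi (huK i hi0 hi) huq (hvK i hi0 hi) hv2 (hH.symm hgv1)
    hgv2 (hH.symm hp1) hp2 hx1 hx2 hw1 hw2 (hH.symm hgw1) hgw2
  by_cases hwe : w = z i
  · refine ⟨G, hE, hne, Le.refl z G, Or.inl ?_⟩
    have h1 : H (m2 i j) p (z i) := by
      rw [← hwe]; exact hH.symm hw2
    have h2 := E3 hG rules4 hi hj hi0 hj0 hji hGz (hH.symm huG) (hvK i hi0 hi) (hH.symm hp1) hp2 h1
    exact XB hG rules4 hi hi0 hv1 (hH.symm h2)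
  · refine ⟨gw, el_of_sup hG hF hi hj hi0 hj0 hji hwK hwq (hH.symm hgw1) hgw2, ?_, ?_, Or.inr ?_⟩
    · intro he
      apply hwe
      apply hH.ideq
      exact W1 hG rules4 hj hj0 hgw2 hwz (by rw [he]; exact hH.idl _)
    · exact le_E1 hG hF hi hj hi0 hj0 hji huK huq hGz (hH.symm huG) hwK hwq (hH.symm hgw1) hgw2
        (hH.symm hwg)
    · have hle := le_E1 hG hF hi hj hi0 hj0 hji hvK hv2 (hH.symm hgv1) hgv2 hwK hwq (hH.symm hgw1) hgw2
        hwgv
      have h1 : H (m2 0 j) v gw := by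
        apply comb_m2 hH hj hj0
        intro n hn0 hn hnj
        exact hle v hvK n hn0 hn (m1_nx hH hj hn hnj.symm (hH.symm hgv2))
      exact XB hG rules4 hj hj0 hv1 h1

end

/-- `X` is decided on `G` -/
def Dec (H : ℕ → D → D → Prop) (X G : D) : Prop :=
  ∃ n, n ≠ 0 ∧ n < 7 ∧ ∀ k, k ≠ 0 → k < 7 → k ≠ n → H (nx k) X G

theorem Dec.mono {z : ℕ → D} {X G G' : D} (hX : OnK H z X) (h : Dec H X G) (hle : Le H z G' G) :
    Dec H X G' := by
  obtain ⟨n, h1, h2, h3⟩ := h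
  exact ⟨n, h1, h2, fun k hk hk7 hkn => hle X hX k hk hk7 (h3 k hk hk7 hkn)⟩

open Classical in
/-- the classes which are not excluded -/
noncomputable def bad (H : ℕ → D → D → Prop) (X G : D) : Finset ℕ :=
  (Finset.range 7).filter fun k => k ≠ 0 ∧ ¬ H (nx k) X G

theorem mem_bad {X G : D} {k : ℕ} : k ∈ bad H X G ↔ k < 7 ∧ k ≠ 0 ∧ ¬ H (nx k) X G := by
  classical
  unfold bad
  rw [Finset.mem_filter, Finset.mem_range]

theorem dec_one (hG : Good H) {q : D} {z : ℕ → D} (hF : Frame H q z) {X : D} (hX : OnK H z X) :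
    ∀ (N i : ℕ) (G : D), i < 7 → i ≠ 0 → El H q z i G → G ≠ z i → (bad H X G).card ≤ N →
      ∃ i' G', i' < 7 ∧ i' ≠ 0 ∧ El H q z i' G' ∧ G' ≠ z i' ∧ Le H z G' G ∧ Dec H X G' := by
  intro N
  induction N with
  | zero =>
    intro i G hi hi0 hE hne hc
    refine ⟨i, G, hi, hi0, hE, hne, Le.refl z G, 1, by norm_num, by norm_num, ?_⟩
    intro k hk hk7 _
    by_contra hcon
    have : k ∈ bad H X G := mem_bad.2 ⟨hk7, hk, hcon⟩
    have h2 := Finset.card_pos.2 ⟨k, this⟩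
    omega
  | succ N ih =>
    intro i G hi hi0 hE hne hc
    by_cases h1 : (bad H X G).card ≤ 1
    · refine ⟨i, G, hi, hi0, hE, hne, Le.refl z G, ?_⟩
      by_cases h2 : (bad H X G).Nonempty
      · obtain ⟨n, hn⟩ := h2
        obtain ⟨hn7, hn0, -⟩ := mem_bad.1 hn
        refine ⟨n, hn0, hn7, ?_⟩
        intro k hk hk7 hkn
        by_contra hcon
        have : k ∈ bad H X G := mem_bad.2 ⟨hk7, hk, hcon⟩
        exact hkn (Finset.card_le_one.1 h1 k this n hn)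
      · refine ⟨1, by norm_num, by norm_num, ?_⟩
        intro k hk hk7 _
        by_contra hcon
        exact h2 ⟨k, mem_bad.2 ⟨hk7, hk, hcon⟩⟩
    · push Not at h1
      obtain ⟨a, ha, b, hb, hab⟩ := Finset.one_lt_card.1 h1
      obtain ⟨ha7, ha0, hac⟩ := mem_bad.1 ha
      obtain ⟨hb7, hb0, hbc⟩ := mem_bad.1 hb
      -- base change to `a`
      obtain ⟨G1, hE1, hne1, hle1⟩ : ∃ G1, El H q z a G1 ∧ G1 ≠ z a ∧ Le H z G1 G := by
        by_cases hai : a = i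
        · subst hai; exact ⟨G, hE, hne, Le.refl z G⟩
        · exact base_change hG hF hi ha7 hi0 ha0 hai hE hne
      obtain ⟨G2, hE2, hne2, hle2, hor⟩ := split_ij hG hF ha7 hb7 ha0 hb0 (Ne.symm hab) hE1 hne1 hX
      have hle := Le.trans hle2 hle1
      have hsub : bad H X G2 ⊆ bad H X G := by
        intro k hk
        obtain ⟨h1, h2, h3⟩ := mem_bad.1 hk
        exact mem_bad.2 ⟨h1, h2, fun h => h3 (hle X hX k h2 h1 h)⟩
      have hss : bad H X G2 ⊂ bad H X G := by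
        rw [Finset.ssubset_iff_of_subset hsub]
        rcases hor with h | h
        · exact ⟨a, ha, fun hh => (mem_bad.1 hh).2.2 h⟩
        · exact ⟨b, hb, fun hh => (mem_bad.1 hh).2.2 h⟩
      have hlt := Finset.card_lt_card hss
      obtain ⟨i', G', h1, h2, h3, h4, h5, h6⟩ := ih a G2 ha7 ha0 hE2 hne2 (by omega)
      exact ⟨i', G', h1, h2, h3, h4, Le.trans h5 hle, h6⟩

theorem dec_list (hG : Good H) {q : D} {z : ℕ → D} (hF : Frame H q z) :
    ∀ (L : List D), (∀ X ∈ L, OnK H z X) → ∀ (i : ℕ) (G : D), i < 7 → i ≠ 0 → El H q z i G →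
      G ≠ z i → ∃ i' G', i' < 7 ∧ i' ≠ 0 ∧ El H q z i' G' ∧ G' ≠ z i' ∧ Le H z G' G ∧
        ∀ X ∈ L, Dec H X G' := by
  intro L
  induction L with
  | nil =>
    intro _ i G hi hi0 hE hne
    exact ⟨i, G, hi, hi0, hE, hne, Le.refl z G, fun X hX => by simp at hX⟩
  | cons X L ih =>
    intro hL i G hi hi0 hE hne
    obtain ⟨i1, G1, h1, h2, h3, h4, h5, h6⟩ := ih (fun Y hY => hL Y (by simp [hY])) i G hi hi0 hE hne
    have hX := hL X (by simp)
    obtain ⟨i2, G2, g1, g2, g3, g4, g5, g6⟩ := dec_one hG hF hX _ i1 G1 h1 h2 h3 h4 le_rfl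
    refine ⟨i2, G2, g1, g2, g3, g4, Le.trans g5 h5, ?_⟩
    intro Y hY
    rw [List.mem_cons] at hY
    rcases hY with rfl | hY
    · exact g6
    · exact (h6 Y hY).mono (hL Y (by simp [hY])) g5

end Pool.Agent.W213.Ly
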