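import Mathlib

/-!
Statements for the general Lyndon algebras L(m,0) (for MP_9e3e1a_lc).
-/

set_option autoImplicit false

namespace Pool.Agent.W213.Ly.Gen

/-- The atoms of `L(m,0)`: `none` is `1'`, `some i` is the diversity atom `a_i`. -/
abbrev At (m : ℕ) : Type := Option (Fin (m + 1))

/-- `AC a b c`: the atom `c` lies below `a ; b`. -/
def AC {m : ℕ} : At m → At m → At m → Prop
  | none, b, c => c = b
  | some i, none, c => c = some i
  | some i, some j, c =>
    if i = j then (c = none ∨ c = some i) else (c ≠ none ∧ c ≠ some i ∧ c ≠ some j)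

/-- product of sets of atoms -/
def cmpS {m : ℕ} (S T : Set (At m)) : Set (At m) := {c | ∃ a ∈ S, ∃ b ∈ T, AC a b c}

/-- weak representation with unit `D × D` -/
structure WRel (m : ℕ) (D : Type) (R : Set (At m) → D → D → Prop) : Prop where
  full : ∀ x y, R Set.univ x y
  zero : ∀ x y, ¬ R ∅ x y
  inter : ∀ (S T : Set (At m)) (x y : D), R S x y → R T x y → R (S ∩ T) x y
  mono : ∀ (S T : Set (At m)) (x y : D), S ⊆ T → R S x y → R T x y
  symm : ∀ (S : Set (At m)) (x y : D), R S x y → R S y x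
  ident : ∀ x y : D, R {none} x y ↔ x = y
  comp : ∀ (S T : Set (At m)) (x z : D), R (cmpS S T) x z ↔ ∃ y, R S x y ∧ R T y z

/-- `L(m,0)` has no weak representation -/
def NoWRep (m : ℕ) : Prop :=
  ∀ (D : Type) (R : Set (At m) → D → D → Prop), WRel m D R → ∀ x y : D, ¬ R {some 0} x y

/-- no net of order `m` and degree `m` for `m = 6 + 36 s` -/
def NoCodeG : Prop :=
  ∀ (s m : ℕ), m = 6 + 36 * s → ∀ f : Fin m × Fin m → Fin m → Fin m,
    (∀ P Q : Fin m × Fin m, P ≠ Q → ∀ k l : Fin m, f P k = f Q k → f P l = f Q l → k = l) → False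

/-- the sets of atoms which do not separate `a_i` and `a_j` -/
def TW {m : ℕ} (i j : Fin (m + 1)) : Set (Set (At m)) := {S | some i ∈ S ↔ some j ∈ S}

/-- the subalgebra `TW i j` is (weakly) representable -/
def RepTwin (m : ℕ) : Prop :=
  ∀ i j : Fin (m + 1), i ≠ j → ∃ (U : Type) (h : Set (At m) → Set (U × U)),
    Set.InjOn h (TW i j) ∧ h ∅ = ∅ ∧ h {none} = {p : U × U | p.1 = p.2} ∧
    ∀ x ∈ TW i j, ∀ y ∈ TW i j,
      h (x ∩ y) = h x ∩ h y ∧
      h (cmpS x y) = {p : U × U | ∃ w : U, (p.1, w) ∈ h x ∧ (w, p.2) ∈ h y} ∧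
      h x = {p : U × U | (p.2, p.1) ∈ h x}

/-- frozen statement S15122 -/
def Target : Prop :=
    ¬ (∃ n : ℕ, ∀ (A : Type) [BooleanAlgebra A] (c : A → A → A) (v : A → A) (e : A)
      (W : Set A → Prop),
      (∀ S : Set A, W S ↔
        ((∀ x ∈ S, ∀ y ∈ S, ∀ z ∈ S,
            c (c x y) z = c x (c y z) ∧
            c (x ⊔ y) z = c x z ⊔ c y z ∧
            c x e = x ∧
            v (v x) = x ∧
            v (x ⊔ y) = v x ⊔ v y ∧
            v (c x y) = c (v y) (v x) ∧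
            c (v x) (c x y)ᶜ ≤ yᶜ) ∧
         ∃ (U : Type) (h : A → Set (U × U)),
            Set.InjOn h S ∧ h ⊥ = ∅ ∧ h e = {p : U × U | p.1 = p.2} ∧
            ∀ x ∈ S, ∀ y ∈ S,
              h (x ⊓ y) = h x ∩ h y ∧
              h (c x y) = {p : U × U | ∃ w : U, (p.1, w) ∈ h x ∧ (w, p.2) ∈ h y} ∧
              h (v x) = {p : U × U | (p.2, p.1) ∈ h x})) →
      (∀ g : Fin n → A,
        W {a : A | ∀ T : Set A, Set.range g ⊆ T →
          (∀ x ∈ T, ∀ y ∈ T, x ⊔ y ∈ T ∧ xᶜ ∈ T ∧ c x y ∈ T ∧ v x ∈ T) →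
          e ∈ T → a ∈ T}) →
      W Set.univ)

end Pool.Agent.W213.Ly.Gen
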