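import Pool.Agent.W213.Ly.Perm

/-! Small lemmas: `a` differs from all entries of an explicit list. -/

set_option autoImplicit false

namespace Pool.Agent.W213.Ly

theorem nm0 {a : ℕ} : ∀ b ∈ ([] : List ℕ), a ≠ b := by simp
theorem nm1 {a b1 : ℕ} (h1 : a ≠ b1) : ∀ b ∈ [b1], a ≠ b := by
  intro b hb; simp only [List.mem_cons, List.not_mem_nil, or_false] at hb; subst hb; exact h1
theorem nm2 {a b1 b2 : ℕ} (h1 : a ≠ b1) (h2 : a ≠ b2) : ∀ b ∈ [b1, b2], a ≠ b := by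
  intro b hb; simp only [List.mem_cons, List.not_mem_nil, or_false] at hb
  rcases hb with rfl | rfl <;> assumption
theorem nm3 {a b1 b2 b3 : ℕ} (h1 : a ≠ b1) (h2 : a ≠ b2) (h3 : a ≠ b3) :
    ∀ b ∈ [b1, b2, b3], a ≠ b := by
  intro b hb; simp only [List.mem_cons, List.not_mem_nil, or_false] at hb
  rcases hb with rfl | rfl | rfl <;> assumption
theorem nm4 {a b1 b2 b3 b4 : ℕ} (h1 : a ≠ b1) (h2 : a ≠ b2) (h3 : a ≠ b3) (h4 : a ≠ b4) :
    ∀ b ∈ [b1, b2, b3, b4], a ≠ b := by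
  intro b hb; simp only [List.mem_cons, List.not_mem_nil, or_false] at hb
  rcases hb with rfl | rfl | rfl | rfl <;> assumption

end Pool.Agent.W213.Ly
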