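import Mathlib

/-!
Statement of a combinatorial endgame lemma (for MP_24331d_lc).
-/

namespace Pool.Agent.W213.Ly

/-- There are no 36 words of length 6 over a 6-letter alphabet, any two of which agree in at most one
coordinate (equivalently: no net of order 6 and degree 6, no 4 MOLS of order 6). -/
def NoCode : Prop :=
  ∀ f : Fin 36 → Fin 6 → Fin 6,
    (∀ P Q : Fin 36, P ≠ Q → ∀ k l : Fin 6, f P k = f Q k → f P l = f Q l → k = l) → False

end Pool.Agent.W213.Ly
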