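import Pool.Agent.W213.Ly.Sound

/-!
Relabelling of the classes, and mask abbreviations.
-/

set_option autoImplicit false

namespace Pool.Agent.W213.Ly

/-- one class -/
def s1 (a : ℕ) : ℕ := Nat.shiftLeft 1 a
/-- two classes -/
def s2 (a b : ℕ) : ℕ := Nat.lor (Nat.shiftLeft 1 a) (Nat.shiftLeft 1 b)
/-- identity or one of three classes -/
def m3 (a b c : ℕ) : ℕ :=
  Nat.lor 128 (Nat.lor (Nat.shiftLeft 1 a) (Nat.lor (Nat.shiftLeft 1 b) (Nat.shiftLeft 1 c)))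
/-- three classes -/
def s3 (a b c : ℕ) : ℕ :=
  (Nat.lor (Nat.shiftLeft 1 a) (Nat.lor (Nat.shiftLeft 1 b) (Nat.shiftLeft 1 c)))
/-- everything except class `a` -/
def nx (a : ℕ) : ℕ := Nat.xor 255 (Nat.shiftLeft 1 a)

/-- the classes not in the list -/
def rest (l : List ℕ) : List ℕ := (List.range 7).filter fun x => !(l.any fun y => Nat.beq x y)

/-- code of the relabelling which sends class `K[t]` to class `(l ++ rest l)[t]` -/
def pcode (K l : List ℕ) : ℕ :=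
  ((l ++ rest l).zip K).foldl (fun acc t => Nat.add acc (Nat.shiftLeft t.1 (Nat.mul 3 t.2))) 0

/-- relabelling of a class -/
def rc (ρ c : ℕ) : ℕ := Nat.mod (Nat.shiftRight ρ (Nat.mul 3 c)) 8

/-- relabelling of a mask -/
def rm (ρ S : ℕ) : ℕ :=
  Nat.lor (Nat.land S 128)
  (Nat.lor (Nat.shiftLeft (Nat.mod S 2) (rc ρ 0))
  (Nat.lor (Nat.shiftLeft (Nat.mod (Nat.shiftRight S 1) 2) (rc ρ 1))
  (Nat.lor (Nat.shiftLeft (Nat.mod (Nat.shiftRight S 2) 2) (rc ρ 2))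
  (Nat.lor (Nat.shiftLeft (Nat.mod (Nat.shiftRight S 3) 2) (rc ρ 3))
  (Nat.lor (Nat.shiftLeft (Nat.mod (Nat.shiftRight S 4) 2) (rc ρ 4))
  (Nat.lor (Nat.shiftLeft (Nat.mod (Nat.shiftRight S 5) 2) (rc ρ 5))
  (Nat.shiftLeft (Nat.mod (Nat.shiftRight S 6) 2) (rc ρ 6))))))))

/-- pairwise distinct (Boolean) -/
def dist : List ℕ → Bool
  | [] => true
  | a :: l => (l.all fun b => !Nat.beq a b) && dist l

/-- `ρ` codes a permutation of the classes -/
def permOk (ρ : ℕ) : Bool :=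
  ([rc ρ 0, rc ρ 1, rc ρ 2, rc ρ 3, rc ρ 4, rc ρ 5, rc ρ 6].all fun x => Nat.blt x 7) &&
    dist [rc ρ 0, rc ρ 1, rc ρ 2, rc ρ 3, rc ρ 4, rc ρ 5, rc ρ 6]

/-- `H` belongs to a family of mask relations closed under relabelling -/
def Good {D : Type*} (H : ℕ → D → D → Prop) : Prop :=
  ∃ F : Set (ℕ → D → D → Prop), H ∈ F ∧ (∀ K ∈ F, MWR K) ∧
    ∀ K ∈ F, ∀ ρ : ℕ, permOk ρ = true → (fun n => K (rm ρ n)) ∈ F

theorem Good.mwr {D : Type*} {H : ℕ → D → D → Prop} (h : Good H) : MWR H := by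
  obtain ⟨F, h1, h2, -⟩ := h
  exact h2 H h1

theorem Good.rel {D : Type*} {H : ℕ → D → D → Prop} (h : Good H) {ρ : ℕ} (hρ : permOk ρ = true) :
    Good (fun n => H (rm ρ n)) := by
  obtain ⟨F, h1, h2, h3⟩ := h
  exact ⟨F, h3 H h1 ρ hρ, h2, h3⟩

/-- the canonical premises `P`, relabelled by `ρ`, are the premises `Q` -/
def eqPrem (ρ : ℕ) : List (ℕ × ℕ × ℕ) → List (ℕ × ℕ × ℕ) → Bool
  | [], [] => true
  | s :: P, t :: Q => Nat.beq s.1 t.1 && Nat.beq s.2.1 t.2.1 && Nat.beq (rm ρ s.2.2) t.2.2 && eqPrem ρ P Q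
  | _, _ => false

/-- check of a relabelling -/
def relOk (ρ : ℕ) (P Q : List (ℕ × ℕ × ℕ)) (g g' : ℕ) : Bool :=
  force ρ fun ρ => permOk ρ && eqPrem ρ P Q && Nat.beq (rm ρ g) g'

theorem eqPrem_sound {D : Type*} {H : ℕ → D → D → Prop} {ρ : ℕ} (p : ℕ → D) :
    ∀ (P Q : List (ℕ × ℕ × ℕ)), eqPrem ρ P Q = true → (∀ t ∈ Q, H t.2.2 (p t.1) (p t.2.1)) →
      ∀ t ∈ P, H (rm ρ t.2.2) (p t.1) (p t.2.1) := by
  intro P
  induction P with
  | nil => intro Q _ _ t ht; simp at ht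
  | cons s P ih =>
    intro Q h hQ t ht
    cases Q with
    | nil => simp [eqPrem] at h
    | cons r Q =>
      simp only [eqPrem, Bool.and_eq_true] at h
      obtain ⟨⟨⟨h1, h2⟩, h3⟩, h4⟩ := h
      rw [List.mem_cons] at ht
      rcases ht with rfl | ht
      · have := hQ r (by simp)
        rw [Nat.eq_of_beq_eq_true h1, Nat.eq_of_beq_eq_true h2, Nat.eq_of_beq_eq_true h3]
        exact this
      · exact ih Q h4 (fun t ht => hQ t (by simp [ht])) t ht

/-- soundness of a certificate used with a relabelling -/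
theorem rel_sound {D : Type*} {H : ℕ → D → D → Prop} (hH : Good H) {lv : ℕ}
    (hR : ∀ K : ℕ → D → D → Prop, Good K → Rules lv K) {n : ℕ} {P Q : List (ℕ × ℕ × ℕ)}
    {gi gj g g' : ℕ} {l : List Step} {ρ : ℕ} (hc : check lv n P gi gj g l = true)
    (hr : relOk ρ P Q g g' = true) (p : ℕ → D)
    (hp : ∀ t ∈ Q, H t.2.2 (p t.1) (p t.2.1)) : H g' (p gi) (p gj) := by
  unfold relOk at hr
  rw [force_eq] at hr
  simp only [Bool.and_eq_true] at hr
  obtain ⟨⟨h1, h2⟩, h3⟩ := hr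
  have hG := hH.rel h1
  have := check_sound hG.mwr (hR _ hG) hc p (eqPrem_sound p P Q h2 hp)
  rw [Nat.eq_of_beq_eq_true h3] at this
  exact this

/-- all lists `l` of `k` numbers `< 7` such that `pre ++ l` is pairwise distinct satisfy `f` -/
def allD : ℕ → List ℕ → (List ℕ → Bool) → Bool
  | 0, l, f => f l
  | k + 1, l, f => (List.range 7).all fun a => (l.any fun b => Nat.beq a b) || allD k (l ++ [a]) f

theorem allD_step {k : ℕ} {l : List ℕ} {f : List ℕ → Bool} (h : allD (k + 1) l f = true) {a : ℕ}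
    (ha : a < 7) (hl : ∀ b ∈ l, a ≠ b) : allD k (l ++ [a]) f = true := by
  unfold allD at h
  rw [List.all_eq_true] at h
  have h2 := h a (List.mem_range.2 ha)
  rw [Bool.or_eq_true] at h2
  rcases h2 with h2 | h2
  · rw [List.any_eq_true] at h2
    obtain ⟨b, hb, hab⟩ := h2
    exact absurd (Nat.eq_of_beq_eq_true hab) (hl b hb)
  · exact h2

end Pool.Agent.W213.Ly
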