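import Pool.Agent.W213.Ly.Cert1

/-! All rules hold. -/

set_option autoImplicit false

namespace Pool.Agent.W213.Ly

universe u

variable {D : Type u}

theorem rules0 (H : ℕ → D → D → Prop) (_ : Good H) : Rules 0 H :=
  ⟨fun h => absurd h (by omega), fun h => absurd h (by omega), fun h => absurd h (by omega),
    fun h => absurd h (by omega)⟩

theorem splitR {H : ℕ → D → D → Prop} (hH : Good H) : SplitR H := by
  intro a b c ha hb hc hab hac hbc w p x y h1 h2 h3 h4 h5
  exact spR hH rules0 ha hb hc hab.symm hac.symm hbc.symm h1 (hH.mwr.symm h2) h3 h4 h5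

theorem c1R' {H : ℕ → D → D → Prop} (hH : Good H) : C1R H := by
  intro a b ha hb hab w p x x' h1 h2 h3 h4 h5
  exact hH.mwr.symm (c1R hH rules0 ha hb hab.symm h1 (hH.mwr.symm h2) h3 (hH.mwr.symm h4) h5)

theorem rules2 (H : ℕ → D → D → Prop) (hH : Good H) : Rules 2 H :=
  ⟨fun _ => splitR hH, fun _ => c1R' hH, fun h => absurd h (by omega), fun h => absurd h (by omega)⟩

theorem aR' {H : ℕ → D → D → Prop} (hH : Good H) : AR' H := by
  intro a b c d ha hb hc hd hab hac hbc hbd hcd had w p x y h1 h2 h3 h4 h5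
  exact ra1R hH rules2 ha hb hc hd hab.symm hac.symm hbc.symm had.symm hbd.symm hcd.symm h1
    (hH.mwr.symm h2) h3 (hH.mwr.symm h4) (hH.mwr.symm h5)

theorem rules3 (H : ℕ → D → D → Prop) (hH : Good H) : Rules 3 H :=
  ⟨fun _ => splitR hH, fun _ => c1R' hH, fun _ => aR' hH, fun h => absurd h (by omega)⟩

theorem aR {H : ℕ → D → D → Prop} (hH : Good H) : AR H := by
  intro a b c d ha hb hc hd hab hac hbc hbd hcd w p x y h1 h2 h3 h4 h5
  by_cases had : a = d
  · subst had
    exact hH.mwr.symm (ra2R hH rules3 ha hb hc hab.symm hac.symm hbc.symm h1 (hH.mwr.symm h2) h3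
      (hH.mwr.symm h4) (hH.mwr.symm h5))
  · exact aR' hH a b c d ha hb hc hd hab hac hbc hbd hcd had w p x y h1 h2 h3 h4 h5

theorem rules4 (H : ℕ → D → D → Prop) (hH : Good H) : Rules 4 H :=
  ⟨fun _ => splitR hH, fun _ => c1R' hH, fun _ => aR' hH, fun _ => aR hH⟩

end Pool.Agent.W213.Ly
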