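import Pool.Agent.W213.Ly.Core

/-!
Soundness of the path-consistency certificates.
-/

set_option autoImplicit false

namespace Pool.Agent.W213.Ly

universe u

/-- mask relations of a weak representation of L(6,0) -/
structure MWR {D : Type u} (H : ℕ → D → D → Prop) : Prop where
  full : ∀ x y, H 255 x y
  zero : ∀ x y, ¬ H 0 x y
  inter : ∀ {S T x y}, H S x y → H T x y → H (S &&& T) x y
  mono : ∀ {S T x y}, S &&& T = S → H S x y → H T x y
  symm : ∀ {S x y}, H S x y → H S y x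
  idl : ∀ x, H 128 x x
  ideq : ∀ {x y}, H 128 x y → x = y
  cmp : ∀ {S T x y z}, H S x y → H T y z → H (comp S T) x z
  dem : ∀ {S T x z}, H (comp S T) x z → ∃ y, H S x y ∧ H T y z

/-- rule `Split` -/
def SplitR {D : Type u} (H : ℕ → D → D → Prop) : Prop :=
  ∀ a b c : ℕ, a < 7 → b < 7 → c < 7 → a ≠ b → a ≠ c → b ≠ c → ∀ w p x y : D,
    H (m2 a b) w p → H (m1 a) w x → H (m1 b) x p → H (mx c) w y → H (mx c) p y → H (mx c) x y

/-- rule `C1` -/
def C1R {D : Type u} (H : ℕ → D → D → Prop) : Prop :=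
  ∀ a b : ℕ, a < 7 → b < 7 → a ≠ b → ∀ w p x x' : D,
    H (m2 a b) w p → H (m1 a) w x → H (m1 b) x p → H (m1 b) w x' → H (m1 a) x' p → H (m2 a b) x x'

/-- rule `A`, restricted to `d ≠ a` -/
def AR' {D : Type u} (H : ℕ → D → D → Prop) : Prop :=
  ∀ a b c d : ℕ, a < 7 → b < 7 → c < 7 → d < 7 → a ≠ b → a ≠ c → b ≠ c → b ≠ d → c ≠ d → a ≠ d →
    ∀ w p x y : D, H (m2 a b) w p → H (m1 a) w x → H (m1 b) x p → H (m1 c) x y → H (m1 d) p y →
      H (m2 a c) w y

/-- rule `A` -/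
def AR {D : Type u} (H : ℕ → D → D → Prop) : Prop :=
  ∀ a b c d : ℕ, a < 7 → b < 7 → c < 7 → d < 7 → a ≠ b → a ≠ c → b ≠ c → b ≠ d → c ≠ d →
    ∀ w p x y : D, H (m2 a b) w p → H (m1 a) w x → H (m1 b) x p → H (m1 c) x y → H (m1 d) p y →
      H (m2 a c) w y

/-- rules available at level `lv` -/
structure Rules (lv : ℕ) {D : Type u} (H : ℕ → D → D → Prop) : Prop where
  sp : 1 ≤ lv → SplitR H
  c1 : 2 ≤ lv → C1R H
  ra' : 3 ≤ lv → AR' H
  ra : 4 ≤ lv → AR H

theorem force_eq (n : ℕ) (f : ℕ → Bool) : force n f = f n := by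
  cases n <;> rfl

theorem sub_iff {S T : ℕ} : sub S T = true ↔ S &&& T = S := by
  unfold sub
  exact ⟨fun h => Nat.eq_of_beq_eq_true h, fun h => by
    show Nat.beq (S &&& T) S = true
    rw [h]; exact Nat.beq_refl S⟩

/-- abbreviation for the position of an entry -/
theorem get_testBit (M i j b : ℕ) :
    (get M i j).testBit b = (decide (b < 8) && M.testBit (8 * (32 * i + j) + b)) := by
  have : get M i j = (M >>> (8 * (32 * i + j))) % 2 ^ 8 := rfl
  rw [this, Nat.testBit_mod_two_pow, Nat.testBit_shiftRight]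

theorem get_lt (M i j : ℕ) : get M i j < 256 := Nat.mod_lt _ (by norm_num)

theorem shl_testBit {d : ℕ} (hd : d < 256) {i j k l b : ℕ} (hi : i < 32) (hj : j < 32) (hk : k < 32)
    (hl : l < 32) (hb : b < 8) :
    (d <<< (8 * (32 * i + j))).testBit (8 * (32 * k + l) + b) =
      (decide (k = i ∧ l = j) && d.testBit b) := by
  rw [Nat.testBit_shiftLeft]
  by_cases h : k = i ∧ l = j
  · obtain ⟨rfl, rfl⟩ := h
    simp
  · simp only [h, decide_false, Bool.false_and]
    by_cases h2 : 8 * (32 * k + l) + b ≥ 8 * (32 * i + j)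
    · have h3 : 8 * (32 * k + l) + b - 8 * (32 * i + j) ≥ 8 := by
        by_contra h4
        apply h
        omega
      have h5 : d.testBit (8 * (32 * k + l) + b - 8 * (32 * i + j)) = false := by
        apply Nat.testBit_lt_two_pow
        calc d < 2 ^ 8 := hd
          _ ≤ _ := Nat.pow_le_pow_right (by norm_num) h3
      rw [h5]; simp
    · simp [h2]

theorem ite_testBit (c : Prop) [Decidable c] (d b : ℕ) :
    (if c then d else 0).testBit b = (decide c && d.testBit b) := by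
  by_cases h : c <;> simp [h]

theorem get_updd {M d : ℕ} (hd : d < 256) {i j k l : ℕ} (hi : i < 32) (hj : j < 32) (hk : k < 32)
    (hl : l < 32) :
    get (updd M i j d) k l =
      (get M k l ^^^ (if k = i ∧ l = j then d else 0)) ^^^ (if k = j ∧ l = i then d else 0) := by
  apply Nat.eq_of_testBit_eq
  intro b
  have h0 : updd M i j d = (M ^^^ (d <<< (8 * (32 * i + j)))) ^^^ (d <<< (8 * (32 * j + i))) := rfl
  rw [get_testBit, h0]
  simp only [Nat.testBit_xor, get_testBit]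
  by_cases hb : b < 8
  · rw [shl_testBit hd hi hj hk hl hb, shl_testBit hd hj hi hk hl hb, ite_testBit, ite_testBit]
    simp only [hb, decide_true, Bool.true_and]
  · have hdb : d.testBit b = false := by
      apply Nat.testBit_lt_two_pow
      calc d < 2 ^ 8 := hd
        _ ≤ _ := Nat.pow_le_pow_right (by norm_num) (by omega)
    rw [ite_testBit, ite_testBit, hdb]
    simp [hb]

theorem get_upd {M i j v : ℕ} (hs : get M i j = get M j i) {k l : ℕ} (hi : i < 32) (hj : j < 32)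
    (hk : k < 32) (hl : l < 32) :
    get (upd M i j v) k l =
      if (k = i ∧ l = j ∨ k = j ∧ l = i) ∧ i ≠ j then get M k l &&& v else get M k l := by
  have hd : get M i j ^^^ (get M i j &&& v) < 256 := by
    have h1 := get_lt M i j
    have h2 : get M i j &&& v < 256 := lt_of_le_of_lt Nat.and_le_left h1
    exact Nat.xor_lt_two_pow (n := 8) h1 h2
  have h0 : upd M i j v = updd M i j (get M i j ^^^ (get M i j &&& v)) := rfl
  rw [h0, get_updd hd hi hj hk hl]
  have hx : ∀ g : ℕ, g ^^^ (g ^^^ (g &&& v)) = g &&& v := by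
    intro g
    rw [← Nat.xor_assoc, Nat.xor_self, Nat.zero_xor]
  by_cases hij : i = j
  · subst hij
    simp only [ne_eq, not_true_eq_false, and_false, if_false]
    by_cases h1 : k = i ∧ l = i
    · simp only [h1, and_self, if_true]
      rw [Nat.xor_assoc, Nat.xor_self, Nat.xor_zero]
    · simp [h1]
  · simp only [ne_eq, hij, not_false_eq_true, and_true]
    by_cases h1 : k = i ∧ l = j
    · obtain ⟨rfl, rfl⟩ := h1
      have h2 : ¬ (k = l ∧ l = k) := fun h => hij h.1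
      simp [h2, hx]
    · by_cases h2 : k = j ∧ l = i
      · obtain ⟨rfl, rfl⟩ := h2
        rw [← hs]
        simp [h1, hx]
      · simp [h1, h2]

/-- validity of a label matrix for the first `n` points -/
structure Valid {D : Type u} (H : ℕ → D → D → Prop) (p : ℕ → D) (n M : ℕ) : Prop where
  lab : ∀ i < n, ∀ j < n, H (get M i j) (p i) (p j)
  sym : ∀ i < 32, ∀ j < 32, get M i j = get M j i
  fresh : ∀ i < 32, ∀ j < 32, (n ≤ i ∨ n ≤ j) → get M i j = if i = j then 128 else 255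

variable {D : Type u} {H : ℕ → D → D → Prop}

theorem Valid.upd (hH : MWR H) {p : ℕ → D} {n M : ℕ} (hn : n ≤ 32) (hv : Valid H p n M) {i j v : ℕ}
    (hi : i < n) (hj : j < n) (h : H v (p i) (p j)) : Valid H p n (upd M i j v) := by
  have hg := fun k (hk : k < 32) l (hl : l < 32) =>
    get_upd (v := v) (hv.sym i (by omega) j (by omega)) (k := k) (l := l) (by omega) (by omega) hk hl
  refine ⟨?_, ?_, ?_⟩
  · intro k hk l hl
    rw [hg k (by omega) l (by omega)]
    split_ifs with hc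
    · rcases hc.1 with ⟨rfl, rfl⟩ | ⟨rfl, rfl⟩
      · exact hH.inter (hv.lab _ hk _ hl) h
      · exact hH.inter (hv.lab _ hk _ hl) (hH.symm h)
    · exact hv.lab k hk l hl
  · intro k hk l hl
    rw [hg k hk l hl, hg l hl k hk, hv.sym k hk l hl]
    have : ((k = i ∧ l = j ∨ k = j ∧ l = i) ∧ i ≠ j) ↔ ((l = i ∧ k = j ∨ l = j ∧ k = i) ∧ i ≠ j) := by
      tauto
    simp only [this]
  · intro k hk l hl hkl
    rw [hg k hk l hl]
    have : ¬ ((k = i ∧ l = j ∨ k = j ∧ l = i) ∧ i ≠ j) := by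
      rintro ⟨⟨rfl, rfl⟩ | ⟨rfl, rfl⟩, -⟩ <;> omega
    rw [if_neg this]
    exact hv.fresh k hk l hl hkl

theorem Valid.extend (hH : MWR H) {p : ℕ → D} {n M : ℕ} (hn : n < 32) (hv : Valid H p n M) (y : D) :
    Valid H (Function.update p n y) (n + 1) M := by
  refine ⟨?_, hv.sym, fun i hi j hj hij => hv.fresh i hi j hj (by omega)⟩
  intro i hi j hj
  by_cases h1 : i = n
  · by_cases h2 : j = n
    · rw [h1, h2, hv.fresh n (by omega) n (by omega) (Or.inl le_rfl)]
      simpa using hH.idl y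
    · subst h1
      rw [hv.fresh i (by omega) j (by omega) (Or.inl le_rfl), if_neg (fun h => h2 h.symm)]
      exact hH.full _ _
  · by_cases h2 : j = n
    · subst h2
      rw [hv.fresh i (by omega) j (by omega) (Or.inr le_rfl), if_neg h1]
      exact hH.full _ _
    · rw [Function.update_of_ne h1, Function.update_of_ne h2]
      exact hv.lab i (by omega) j (by omega)

theorem run_sound (hH : MWR H) {lv : ℕ} (hR : Rules lv H) (gi gj gS : ℕ) :
    ∀ (l : List Step) (n M : ℕ) (p : ℕ → D), n ≤ 32 → gi < n → gj < n → Valid H p n M →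
      run lv gi gj gS l n M = true → H gS (p gi) (p gj) := by
  intro l
  induction l with
  | nil =>
    intro n M p hn hgi hgj hv hrun
    unfold run at hrun
    exact hH.mono (sub_iff.1 hrun) (hv.lab gi hgi gj hgj)
  | cons s l ih =>
    intro n M p hn hgi hgj hv hrun
    have hb : ∀ a b : ℕ, (Nat.blt a b = true) ↔ a < b := fun a b => by
      unfold Nat.blt; rw [Nat.ble_eq]; rfl
    have hbe : ∀ a b : ℕ, ((!Nat.beq a b) = true) ↔ a ≠ b := fun a b => by
      cases h : Nat.beq a b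
      · simp only [Bool.not_false, true_iff]
        exact Nat.ne_of_beq_eq_false h
      · simp only [Bool.not_true, Bool.false_eq_true, false_iff, not_not]
        exact Nat.eq_of_beq_eq_true h
    cases s with
    | pc i k j =>
      simp only [run, force_eq, Bool.and_eq_true, hb] at hrun
      obtain ⟨⟨⟨hi, hk⟩, hj⟩, hr⟩ := hrun
      exact ih n _ p hn hgi hgj (hv.upd hH hn hi hj (hH.cmp (hv.lab i hi k hk) (hv.lab k hk j hj))) hr
    | dem i S j T =>
      simp only [run, force_eq, Bool.and_eq_true, hb, sub_iff] at hrun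
      obtain ⟨⟨⟨⟨hi, hj⟩, hn2⟩, hs⟩, hr⟩ := hrun
      obtain ⟨y, hy1, hy2⟩ := hH.dem (hH.mono hs (hv.lab i hi j hj))
      have hv2 := hv.extend hH hn2 y
      have e1 : Function.update p n y n = y := Function.update_self _ _ _
      have e2 : ∀ t, t < n → Function.update p n y t = p t := fun t ht =>
        Function.update_of_ne (by omega) _ _
      have hv3 := hv2.upd hH (by omega) (i := i) (j := n) (v := S) (by omega) (by omega)
        (by rw [e1, e2 i hi]; exact hy1)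
      have hv4 := hv3.upd hH (by omega) (i := n) (j := j) (v := T) (by omega) (by omega)
        (by rw [e1, e2 j hj]; exact hy2)
      have := ih (n + 1) _ _ (by omega) (by omega) (by omega) hv4 hr
      rwa [e2 gi hgi, e2 gj hgj] at this
    | sp w p' x y a b c =>
      simp only [run, force_eq, Bool.and_eq_true, hb, hbe, sub_iff, Nat.ble_eq] at hrun
      obtain ⟨⟨⟨⟨⟨⟨⟨⟨⟨⟨⟨⟨⟨⟨⟨⟨hlv, hw⟩, hp⟩, hx⟩, hy⟩, ha⟩, hb'⟩, hc⟩, hab⟩, hac⟩, hbc⟩, s1⟩, s2⟩, s3⟩, s4⟩, s5⟩, hr⟩ := hrun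
      refine ih n _ p hn hgi hgj (hv.upd hH hn hx hy ?_) hr
      exact hR.sp hlv a b c ha hb' hc hab hac hbc (p w) (p p') (p x) (p y)
        (hH.mono s1 (hv.lab _ hw _ hp)) (hH.mono s2 (hv.lab _ hw _ hx)) (hH.mono s3 (hv.lab _ hx _ hp))
        (hH.mono s4 (hv.lab _ hw _ hy)) (hH.mono s5 (hv.lab _ hp _ hy))
    | c1 w p' x x' a b =>
      simp only [run, force_eq, Bool.and_eq_true, hb, hbe, sub_iff, Nat.ble_eq] at hrun
      obtain ⟨⟨⟨⟨⟨⟨⟨⟨⟨⟨⟨⟨⟨hlv, hw⟩, hp⟩, hx⟩, hx'⟩, ha⟩, hb'⟩, hab⟩, s1⟩, s2⟩, s3⟩, s4⟩, s5⟩, hr⟩ := hrun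
      refine ih n _ p hn hgi hgj (hv.upd hH hn hx hx' ?_) hr
      exact hR.c1 hlv a b ha hb' hab (p w) (p p') (p x) (p x')
        (hH.mono s1 (hv.lab _ hw _ hp)) (hH.mono s2 (hv.lab _ hw _ hx)) (hH.mono s3 (hv.lab _ hx _ hp))
        (hH.mono s4 (hv.lab _ hw _ hx')) (hH.mono s5 (hv.lab _ hx' _ hp))
    | ra w p' x y a b c d =>
      simp only [run, force_eq, Bool.and_eq_true, Bool.or_eq_true, hb, hbe, sub_iff, Nat.ble_eq] at hrun
      obtain ⟨⟨⟨⟨⟨⟨⟨⟨⟨⟨⟨⟨⟨⟨⟨⟨⟨⟨⟨hlv, hw⟩, hp⟩, hx⟩, hy⟩, ha⟩, hb'⟩, hc⟩, hd⟩, hab⟩, hac⟩, hbc⟩, hbd⟩, hcd⟩, s1⟩, s2⟩, s3⟩, s4⟩, s5⟩, hr⟩ := hrun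
      refine ih n _ p hn hgi hgj (hv.upd hH hn hw hy ?_) hr
      rcases hlv with hlv | ⟨hlv, had⟩
      · exact hR.ra hlv a b c d ha hb' hc hd hab hac hbc hbd hcd (p w) (p p') (p x) (p y)
          (hH.mono s1 (hv.lab _ hw _ hp)) (hH.mono s2 (hv.lab _ hw _ hx)) (hH.mono s3 (hv.lab _ hx _ hp))
          (hH.mono s4 (hv.lab _ hx _ hy)) (hH.mono s5 (hv.lab _ hp _ hy))
      · exact hR.ra' hlv a b c d ha hb' hc hd hab hac hbc hbd hcd had (p w) (p p') (p x) (p y)
          (hH.mono s1 (hv.lab _ hw _ hp)) (hH.mono s2 (hv.lab _ hw _ hx)) (hH.mono s3 (hv.lab _ hx _ hp))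
          (hH.mono s4 (hv.lab _ hx _ hy)) (hH.mono s5 (hv.lab _ hp _ hy))

/-- the check of the initial matrix -/
theorem M0_ok : (List.range 32).all (fun i => (List.range 32).all fun j =>
    Nat.beq (get M0 i j) (if i = j then 128 else 255)) = true := by decide +kernel

theorem get_M0 (i j : ℕ) (hi : i < 32) (hj : j < 32) : get M0 i j = if i = j then 128 else 255 := by
  have h := M0_ok
  rw [List.all_eq_true] at h
  have h2 := h i (List.mem_range.2 hi)
  rw [List.all_eq_true] at h2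
  exact Nat.eq_of_beq_eq_true (h2 j (List.mem_range.2 hj))

theorem valid_M0 (hH : MWR H) (p : ℕ → D) (n : ℕ) (hn : n ≤ 32) : Valid H p n M0 := by
  refine ⟨?_, ?_, ?_⟩
  · intro i hi j hj
    rw [get_M0 i j (by omega) (by omega)]
    split_ifs with h
    · subst h; exact hH.idl _
    · exact hH.full _ _
  · intro i hi j hj
    rw [get_M0 i j hi hj, get_M0 j i hj hi]
    by_cases h : i = j
    · simp [h]
    · rw [if_neg h, if_neg (fun h2 => h h2.symm)]
  · intro i hi j hj _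
    exact get_M0 i j hi hj

theorem ini_valid (hH : MWR H) (p : ℕ → D) (n : ℕ) (hn : n ≤ 32) :
    ∀ (l : List (ℕ × ℕ × ℕ)) (M : ℕ), Valid H p n M →
      (∀ t ∈ l, t.1 < n ∧ t.2.1 < n) → (∀ t ∈ l, H t.2.2 (p t.1) (p t.2.1)) →
      Valid H p n (ini l M) := by
  intro l
  induction l with
  | nil => intro M hv _ _; exact hv
  | cons t l ih =>
    intro M hv h1 h2
    have ht := h1 t (by simp)
    exact ih _ (hv.upd hH hn ht.1 ht.2 (h2 t (by simp))) (fun s hs => h1 s (by simp [hs]))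
      (fun s hs => h2 s (by simp [hs]))

/-- soundness of `check` -/
theorem check_sound (hH : MWR H) {lv : ℕ} (hR : Rules lv H) {n : ℕ} {prem : List (ℕ × ℕ × ℕ)}
    {gi gj gS : ℕ} {l : List Step} (hc : check lv n prem gi gj gS l = true) (p : ℕ → D)
    (hp : ∀ t ∈ prem, H t.2.2 (p t.1) (p t.2.1)) : H gS (p gi) (p gj) := by
  have hb : ∀ a b : ℕ, (Nat.blt a b = true) ↔ a < b := fun a b => by
    unfold Nat.blt; rw [Nat.ble_eq]; rfl
  simp only [check, force_eq, Bool.and_eq_true, hb, Nat.ble_eq, List.all_eq_true] at hc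
  obtain ⟨⟨⟨⟨hgi, hgj⟩, hn⟩, hl⟩, hr⟩ := hc
  exact run_sound hH hR gi gj gS l n _ p hn hgi hgj
    (ini_valid hH p n hn prem M0 (valid_M0 hH p n hn) hl hp) hr

end Pool.Agent.W213.Ly
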